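import Pool.Agent.Helper77.RL.Goals
import Pool.Agent.Helper42.RD.Goals2

/-!
# Project RL (MP_fc6b1e_nt), part II: the base change of the main theorem

`L/K` is a Galois extension of degree `p^n`, `M/K` is cyclic of degree `m` prime to `p`, `M' = M L`. In
this file `SelD` denotes the Selmer group of `Helper42.RD`, with `al w ∈ K`; the version of part I, with
`al w ∈ M`, is `RL.SelD`.
-/

namespace Pool.Agent.Helper77.RL

open NumberField Polynomial Module IsDedekindDomain TensorProduct Pool.Agent.Helper51.SigLeo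
open Pool.Agent.Helper51.RP
open Pool.Agent.Helper42.RD (IsDat LocD Match TSet)

/-- The square `K ⊆ M, L ⊆ M'`: `M'` is Galois over `K` and generated by `M` and `L`, `[M : K]` is prime
to `p` and `[L : K] = p^n`. -/
structure Sqr (p n : ℕ) (K M L M' : Type) [Field K] [Field M] [Field L] [Field M'] [Algebra K M]
    [Algebra K L] [Algebra K M'] [Algebra M M'] [Algebra L M'] : Prop where
  galM : IsGalois K M
  galL : IsGalois K L
  gal : IsGalois K M'
  cop : (finrank K M).Coprime p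
  deg : finrank K L = p ^ n
  gen : ∀ g : M' ≃ₐ[K] M', (∀ x : M, g (algebraMap M M' x) = algebraMap M M' x) →
    (∀ y : L, g (algebraMap L M' y) = algebraMap L M' y) → g = 1

/-- **L_SQR** (the Galois group of the square).

PROOF. Restriction is a homomorphism `Gal(M'/K) → Gal(M/K) × Gal(L/K)`, injective by `gen`. `[M' : K]` is
divisible by `[M : K]` and `[L : K]`, which are coprime, so it is at least their product, and the
homomorphism is bijective, `[M' : K] = [M : K] [L : K]`. -/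
def L_SQR : Prop :=
  ∀ (p : ℕ) [Fact p.Prime] (n : ℕ) (K M L M' : Type) [Field K] [Field M] [Field L] [Field M']
    [Algebra K M] [Algebra K L] [Algebra K M'] [Algebra M M'] [Algebra L M'] [IsScalarTower K M M']
    [IsScalarTower K L M'] [FiniteDimensional K M'], Sqr p n K M L M' →
  finrank M M' = p ^ n ∧ finrank L M' = finrank K M ∧ IsGalois M M' ∧ IsGalois L M' ∧
    ∀ (g : M ≃ₐ[K] M) (h : L ≃ₐ[K] L), ∃ f : M' ≃ₐ[K] M',
      (∀ x : M, f (algebraMap M M' x) = algebraMap M M' (g x)) ∧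
      ∀ y : L, f (algebraMap L M' y) = algebraMap L M' (h y)

/-- **L_FRE.** Let `W` be a prime of `M'` above the prime `w` of `M`. The decomposition group of `W` in
`Gal(M'/L)` is trivial iff the decomposition group of `w` in `Gal(M/K)` is trivial.

PROOF (from `L_SQR`). On `M` the valuation of `W` is a positive power of that of `w`
(`HeightOneSpectrum.valuation_liesOver`). If `FreeP K w` and `g ∈ Gal(M'/L)` preserves the valuation of
`W`, then `g|_M` preserves that of `w`, so `g|_M = 1` and `g = 1` by `gen`. Conversely let `FreeP L W` and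
let `g ∈ Gal(M/K)` preserve the valuation of `w`; let `f ∈ Gal(M'/K)` extend `g` and be trivial on `L`
(`L_SQR`). The prime `W'` with `W'.valuation (f y) = W.valuation y` is above `w` (`g` preserves `w`), so
there is `h ∈ Gal(M'/M)` with `W'.valuation (h y) = W.valuation y` (the primes above `w` are conjugate);
hence `h⁻¹ f` preserves the valuation of `W`. `f` and `h` commute, because `f h f⁻¹ h⁻¹` is trivial on `M`
and `L`, and `h^(p^n) = 1`; so `f^(p^n) = (h⁻¹ f)^(p^n)` preserves the valuation of `W`. It is trivial on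
`L`, so it is an element of `Gal(M'/L)` and it is `1`; so `g^(p^n) = 1`, and `g = 1` because the order of
`g` is prime to `p`. -/
def L_FRE : Prop :=
  ∀ (p : ℕ) [Fact p.Prime] (n : ℕ) (K M L M' : Type) [Field K] [NumberField K] [Field M]
    [NumberField M] [Field L] [NumberField L] [Field M'] [NumberField M']
    [Algebra K M] [Algebra K L] [Algebra K M'] [Algebra M M'] [Algebra L M'] [IsScalarTower K M M']
    [IsScalarTower K L M'], Sqr p n K M L M' →
  ∀ (W : HeightOneSpectrum (𝓞 M')) (w : HeightOneSpectrum (𝓞 M)), Above W w →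
    (FreeP L W ↔ FreeP K w)

/-- **L_EF1.** Let `W` be a prime of `M'` above the primes `w` of `M` and `V` of `L`, and suppose that `V`
has trivial decomposition group over `K`. Then `W` is unramified of residue degree 1 over `w`.

PROOF. Let `g ∈ Gal(M'/M)` preserve the valuation of `W`; `g|_L` preserves that of `V`, so it is `1`,
and `g = 1` by `gen`. So the orbit of `W` under `Gal(M'/M)` has `[M' : M]` elements and
`e(W/w) f(W/w) = 1` (`Ideal.ncard_primesOver_mul_ramificationIdxIn_mul_inertiaDegIn`). -/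
def L_EF1 : Prop :=
  ∀ (p : ℕ) [Fact p.Prime] (n : ℕ) (K M L M' : Type) [Field K] [NumberField K] [Field M]
    [NumberField M] [Field L] [NumberField L] [Field M'] [NumberField M']
    [Algebra K M] [Algebra K L] [Algebra K M'] [Algebra M M'] [Algebra L M'] [IsScalarTower K M M']
    [IsScalarTower K L M'], Sqr p n K M L M' →
  ∀ (W : HeightOneSpectrum (𝓞 M')) (w : HeightOneSpectrum (𝓞 M)) (V : HeightOneSpectrum (𝓞 L)),
    Above W w → Above W V → FreeP K V →
    (∀ x : M, ordv W (algebraMap M M' x) = ordv w x) ∧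
    ∀ y : 𝓞 M', ∃ x : 𝓞 M, y - algebraMap (𝓞 M) (𝓞 M') x ∈ W.asIdeal

/-- **L_EUN.** Let `W` be a prime of `M'`, `w`, `V`, `v` the primes of `M`, `L`, `K` below it. If `w` has
trivial decomposition group over `K` and `V` is unramified over `v`, then `W` is unramified over `w`.

PROOF. `e(w/v) = 1`, because `e(w/v) f(w/v)` is the order of the decomposition group of `w`; and
`e(V/v) = 1` by hypothesis. So `e(W/w) = e(W/v) = e(W/V)`. `e(W/w)` divides `[M' : M] = p^n` and `e(W/V)`
divides `[M' : L] = [M : K]`, prime to `p` (`L_SQR`; the extensions are Galois). So `e(W/w) = 1`. -/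
def L_EUN : Prop :=
  ∀ (p : ℕ) [Fact p.Prime] (n : ℕ) (K M L M' : Type) [Field K] [NumberField K] [Field M]
    [NumberField M] [Field L] [NumberField L] [Field M'] [NumberField M']
    [Algebra K M] [Algebra K L] [Algebra K M'] [Algebra M M'] [Algebra L M'] [IsScalarTower K M M']
    [IsScalarTower K L M'], Sqr p n K M L M' →
  ∀ (W : HeightOneSpectrum (𝓞 M')) (w : HeightOneSpectrum (𝓞 M)) (V : HeightOneSpectrum (𝓞 L))
    (v : HeightOneSpectrum (𝓞 K)), Above W w → Above W V → Above w v → Above V v → FreeP K w →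
    (∀ x : K, ordv V (algebraMap K L x) = ordv v x) →
    ∀ x : M, ordv W (algebraMap M M' x) = ordv w x

/-- The conditions at the primes outside `T` on the extension `L/K`: the primes of `K` below `R` split
completely in `L`; the primes of `K` not induced by `T`, not below `R`, which split completely in `M`, are
unramified in `L`. -/
structure CondL (K M L : Type) {k : Type} [NormedField k] [Field K] [NumberField K] [Field M]
    [NumberField M] [Field L] [NumberField L] [Algebra K M] [Algebra K L] (T : Set (K →+* k))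
    (R : Set (HeightOneSpectrum (𝓞 M))) : Prop where
  split : ∀ w ∈ R, ∀ v : HeightOneSpectrum (𝓞 K), Above w v → ∀ V : HeightOneSpectrum (𝓞 L),
    Above V v → FreeP K V
  unr : ∀ v : HeightOneSpectrum (𝓞 K), ¬ AtT T v → (∀ w ∈ R, ¬ Above w v) →
    (∃ w : HeightOneSpectrum (𝓞 M), Above w v ∧ FreeP K w) →
    ∀ V : HeightOneSpectrum (𝓞 L), Above V v → ∀ x : K, ordv V (algebraMap K L x) = ordv v x

/-- The lifted datum: `R'` consists of the primes of `M'` above `R`, and `al' W = al w` if `W` is above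
`w ∈ R`. -/
structure LiftDat (K L : Type) {M M' : Type} [Field K] [Field L] [Field M] [NumberField M] [Field M']
    [NumberField M'] [Algebra K L] [Algebra M M'] (R : Set (HeightOneSpectrum (𝓞 M)))
    (al : HeightOneSpectrum (𝓞 M) → K) (R' : Set (HeightOneSpectrum (𝓞 M')))
    (al' : HeightOneSpectrum (𝓞 M') → L) : Prop where
  iff : ∀ (W : HeightOneSpectrum (𝓞 M')) (w : HeightOneSpectrum (𝓞 M)), Above W w →
    (W ∈ R' ↔ w ∈ R)
  eq : ∀ (W : HeightOneSpectrum (𝓞 M')) (w : HeightOneSpectrum (𝓞 M)), Above W w → w ∈ R →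
    al' W = algebraMap K L (al w)

/-- **L_DAT** (the lifted datum). It exists; and it is a datum for `M'/L` if the primes of `K` below `R`
split completely in `L`.

PROOF (from `L_FRE`, `L_EF1`). Every prime `W` of `M'` is above exactly one prime of `M` (the ideal
`W ∩ 𝓞_M` is prime and not zero); this gives the existence. *fin*: there are finitely many primes above a
given prime. *stable*, *const*: if `W'` is conjugate to `W` by `g ∈ Gal(M'/L)` then the prime of `M` below
`W'` is conjugate to the one below `W` by `g|_M`. *free*: `L_FRE`. *copr*: `W.valuation p` is a power of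
`w.valuation p = 1`. *norm*: `N(W) = N(w)^f`, and `p ∣ N(w) - 1 ∣ N(w)^f - 1`. *unif*: by `L_EF1` (with
`V = W ∩ 𝓞_L`, above `v = w ∩ 𝓞_K`) `ord_W(al w) = ord_w(al w) = 1`. -/
def L_DAT : Prop :=
  ∀ (p : ℕ) [Fact p.Prime] (n : ℕ) (K M L M' : Type) [Field K] [NumberField K] [Field M]
    [NumberField M] [Field L] [NumberField L] [Field M'] [NumberField M']
    [Algebra K M] [Algebra K L] [Algebra K M'] [Algebra M M'] [Algebra L M'] [IsScalarTower K M M']
    [IsScalarTower K L M'], Sqr p n K M L M' →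
  ∀ (R : Set (HeightOneSpectrum (𝓞 M))) (al : HeightOneSpectrum (𝓞 M) → K), IsDat p R al →
    (∀ w ∈ R, ∀ v : HeightOneSpectrum (𝓞 K), Above w v → ∀ V : HeightOneSpectrum (𝓞 L),
      Above V v → FreeP K V) →
  (∃ (R' : Set (HeightOneSpectrum (𝓞 M'))) (al' : HeightOneSpectrum (𝓞 M') → L),
    LiftDat K L R al R' al') ∧
  ∀ (R' : Set (HeightOneSpectrum (𝓞 M'))) (al' : HeightOneSpectrum (𝓞 M') → L),
    LiftDat K L R al R' al' → IsDat p R' al'

/-- **L_MCH** (matching). Let `M₁/M` be Galois of degree prime to `p`, `M₁' = M₁ M'`. If `a ∈ M₁` matches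
the datum then, as an element of `M₁'`, it matches the lifted datum.

PROOF (from `L_SQR`, `L_FRE`, `L_EF1`). The fields `M ⊆ M₁, M' ⊆ M₁'` form a square
`Sqr p n M M₁ M' M₁'`. *free*: let `W₁` be a prime of `M₁'` above `W`, `FreeP L W`, `W ∉ R'`. Let `w`, `w₁`
be the primes of `M`, `M₁` below. `FreeP K w` by `L_FRE`, `w ∉ R`, so `p ∣ ord_{w₁}(a)`, and
`ord_{W₁}(a) = e(W₁/w₁) ord_{w₁}(a)`. *ram*: let `W ∈ R'` be above `w ∈ R`. Let `w₁` be the prime of `M₁`
above `w` given by `Match.ram`, `W₁'` any prime of `M₁'` above `w₁`, `W'` the prime of `M'` below `W₁'`. It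
is above `w`, so `W = g W'` with `g ∈ Gal(M'/M)`; by `L_SQR` for the second square `g` extends to an
automorphism `f` of `M₁'` which is trivial on `M₁`; the prime `W₁ = f W₁'` is above `W` and above `w₁`.
`L_EF1` for the second square: `V := W` is free over `M`, because by `L_EF1` for the first square and the
splitting condition the decomposition group of `W` in `Gal(M'/M)` is trivial (see its proof); so
`ord_{W₁}(x) = ord_{w₁}(x)` for `x ∈ M₁`. In particular `p ∤ ord_{W₁}(a)`, and `LocPow` at `w₁` implies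
`LocPow` at `W₁`. -/
def L_MCH : Prop :=
  ∀ (p : ℕ) [Fact p.Prime] (n : ℕ) (K M L M' M₁ M₁' : Type) [Field K] [NumberField K] [Field M]
    [NumberField M] [Field L] [NumberField L] [Field M'] [NumberField M'] [Field M₁]
    [NumberField M₁] [Field M₁'] [NumberField M₁']
    [Algebra K M] [Algebra K L] [Algebra K M'] [Algebra M M'] [Algebra L M'] [IsScalarTower K M M']
    [IsScalarTower K L M'] [Algebra M M₁] [Algebra M M₁'] [Algebra M₁ M₁'] [Algebra M' M₁']
    [IsScalarTower M M₁ M₁'] [IsScalarTower M M' M₁'],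
    Sqr p n K M L M' → Sqr p n M M₁ M' M₁' →
  ∀ (R : Set (HeightOneSpectrum (𝓞 M))) (al : HeightOneSpectrum (𝓞 M) → K), IsDat p R al →
    (∀ w ∈ R, ∀ v : HeightOneSpectrum (𝓞 K), Above w v → ∀ V : HeightOneSpectrum (𝓞 L),
      Above V v → FreeP K V) →
  ∀ (R' : Set (HeightOneSpectrum (𝓞 M'))) (al' : HeightOneSpectrum (𝓞 M') → L),
    LiftDat K L R al R' al' →
  ∀ a : M₁, Match p R al a → Match p R' al' (algebraMap M₁ M₁' a)

/-- **L_PRM** (the hypotheses of `L_LIFT` at the primes).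

PROOF (from `L_EF1`, `L_EUN`). `iff`, `al_eq` are those of `LiftDat` (`IsScalarTower`); `ne` follows from
`IsDat.unif` (`ordv w 0 = 0`). *split*: let `v ∈ R` (a prime of `M`), `W` any prime of `M'` above `v`, `V`
the prime of `L` below `W`; use `CondL.split` and `L_EF1`. *unr*: let `v ∉ R` be a prime of `M`, not
induced by `above T`, `FreeP K v`; let `v₀` be the prime of `K` below `v`, `W` any prime of `M'` above `v`,
`V` the prime of `L` below `W`. `v₀` is not below a prime of `R`, since the primes of `M` above `v₀` are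
conjugate and `R` is stable. `v₀` is not induced by `T`: if `σ ∈ T` induces `v₀`, `σ` has an extension `τ`
to `M` (`Nonempty (AlgebraicClosure ℚ →+* k)`); the prime `{b : ‖τ b‖ < 1}` of `M` is above `v₀`, so it is
conjugate to `v` by some `g ∈ Gal(M/K)`, and `τ ∘ g ∈ above T` (or `τ ∘ g⁻¹`) induces `v`. So `V` is
unramified over `v₀` and `L_EUN` applies. -/
def L_PRM : Prop :=
  ∀ (p : ℕ) [Fact p.Prime] (k : Type) [NormedField k] [NormedAlgebra ℚ_[p] k]
    [IsUltrametricDist k], Nonempty (AlgebraicClosure ℚ →+* k) →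
  ∀ (n : ℕ) (K M L M' : Type) [Field K] [NumberField K] [Field M]
    [NumberField M] [Field L] [NumberField L] [Field M'] [NumberField M']
    [Algebra K M] [Algebra K L] [Algebra K M'] [Algebra M M'] [Algebra L M'] [IsScalarTower K M M']
    [IsScalarTower K L M'], Sqr p n K M L M' →
  ∀ (T : Set (K →+* k)) (R : Set (HeightOneSpectrum (𝓞 M))) (al : HeightOneSpectrum (𝓞 M) → K),
    IsDat p R al → CondL K M L T R →
  ∀ (R' : Set (HeightOneSpectrum (𝓞 M'))) (al' : HeightOneSpectrum (𝓞 M') → L),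
    LiftDat K L R al R' al' →
  LPrimes K (above T : Set (M →+* k)) R (fun w ↦ algebraMap K M (al w)) R'
    (fun W ↦ algebraMap L M' (al' W))

/-- The condition at `σ ∈ Σ_p`, in terms of `τ : Ω → k` above `σ`: (A) the decomposition group in
`Gal(L/K)` is trivial, for all the `τ`; or (B) for all the `τ` there is `g` in the decomposition group,
acting on `M` as `δ^r` and on the `p`-th roots of unity as `i`, with `‖ζ^r - i‖ = 1`. -/
def CondT (p : ℕ) (K M L Ω : Type) {k : Type} [NormedField k] [Field K] [Field M] [Field L]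
    [Field Ω] [Algebra K M] [Algebra K L] [Algebra K Ω] [Algebra M Ω] [Algebra L Ω]
    (δ : M ≃ₐ[K] M) (ζ : k) (σ : K →+* k) : Prop :=
  (∀ τ : Ω →+* k, τ.comp (algebraMap K Ω) = σ → ∀ g : L ≃ₐ[K] L,
    (∀ x : L, ‖τ (algebraMap L Ω (g x))‖ = ‖τ (algebraMap L Ω x)‖) → g = 1) ∨
  ∀ τ : Ω →+* k, τ.comp (algebraMap K Ω) = σ → ∃ (g : Ω ≃ₐ[K] Ω) (r i : ℕ),
    (∀ x, ‖τ (g x)‖ = ‖τ x‖) ∧ (∀ x : M, g (algebraMap M Ω x) = algebraMap M Ω ((δ ^ r) x)) ∧
    (∀ ξ : Ω, ξ ^ p = 1 → g ξ = ξ ^ i) ∧ ‖ζ ^ r - i‖ = 1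

/-- **L_TYP** (the hypotheses of `L_LIFT` at `Σ_p`).

PROOF (from `L_SQR`). Let `σ ∈ T`. Case (A). Let `τ' : M' → k` extend `σ` and `g ∈ Gal(M'/M)` preserve
the norms of `τ'`. Extend `τ'` to `τ : Ω → k`. The restriction of `g` to `L` (normal over `K`) preserves
the norms of `τ` on `L`; so it is `1`, and `g = 1` by `gen`. Case (B). Let `τ : Ω → k` extend `σ`, and
`g, r, i` be given. Put `s = g^(p^n)`. It preserves the norms of `τ` and acts on the `p`-th roots of unity
as `i^(p^n)`. `M'` is normal over `K`; the restriction of `g` to `M'` is `δ₁^r h` with `h` trivial on `M`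
(both `g` and `δ₁^r` extend `δ^r`), so `h ∈ Gal(M'/M)` commutes with `δ₁` and `h^(p^n) = 1`: the
restriction of `s` is `δ₁^(r p^n)`. In `F_p[X]`, `X^(r p^n) - i^(p^n) = (X^r - i)^(p^n)`, and `P` is coprime
to `X^r - i`: otherwise `P ∣ X^r - i` (`P` is irreducible), so `X^r - i = Φ A + p B` in `ℤ_p[X]`, and
`‖ζ^r - i‖ = ‖p B(ζ)‖ ≤ 1/p` as `Φ(ζ) = 0` and `‖ζ‖ = 1`, a contradiction. -/
def L_TYP : Prop :=
  ∀ (p : ℕ) [Fact p.Prime] (k : Type) [NormedField k] [NormedAlgebra ℚ_[p] k]
    [IsUltrametricDist k], Nonempty (AlgebraicClosure ℚ →+* k) →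
  ∀ (n m : ℕ) (K M L M' Ω : Type) [Field K] [NumberField K] [Field M]
    [NumberField M] [Field L] [NumberField L] [Field M'] [NumberField M'] [Field Ω]
    [Algebra K M] [Algebra K L] [Algebra K M'] [Algebra M M'] [Algebra L M'] [IsScalarTower K M M']
    [IsScalarTower K L M'] [Algebra K Ω] [Algebra M Ω] [Algebra L Ω] [Algebra M' Ω]
    [IsScalarTower K M' Ω] [IsScalarTower M M' Ω] [IsScalarTower L M' Ω] [IsAlgClosure M' Ω],
    Sqr p n K M L M' →
  ∀ (δ : M ≃ₐ[K] M) (δ₁ : M' ≃ₐ[K] M') (ζ : k) (Φ : ℤ_[p][X]) (P : (ZMod p)[X]),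
    PhiData p m ζ Φ P → LData p m n δ δ₁ →
  ∀ T : Set (K →+* k), (∀ σ ∈ T, CondT p K M L Ω δ ζ σ) →
    ∀ σ ∈ T, (∀ τ' : M' →+* k, τ'.comp (algebraMap K M') = σ → SplitAt M τ') ∨
      ∀ τ : Ω →+* k, τ.comp (algebraMap K Ω) = σ → NoTor P δ₁ τ

/-- **L_TRV** (the twisted Selmer group over `M'` is trivial). Let `(R, al)` be a datum for `M/K` with
trivial Selmer group, `L/K` an extension satisfying the conditions, `a ∈ M₁` an element which matches the
datum. Then the twisted Selmer group of `a` for `M'/L` consists of `p`-th powers.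

PROOF (from `L_SQR`, `L_DAT`, `L_MCH`, `L_PRM`, `L_TYP`, `L_LIFT` and `Helper42.RD.E_MAT`). Let `(R', al')` be
the lifted datum (`L_DAT`), a datum for `M'/L`; `a` matches it (`L_MCH`). By `E_MAT` for `K := L`,
`M := M'`, `M₁ := M₁'`, `T := above T` (embeddings of `L`), `δ := δL`, which has order `m = [M' : L]`
(`L_SQR`), an element `x` of the twisted Selmer group is in the Selmer group of `(R', al')`. With
`δ₁ = δL` regarded over `K`, this is `RL.SelD` for `R'`, `W ↦ algebraMap L M' (al' W)` and the set of the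
embeddings of `M'` above `T`, which is `above (above T)` both for `K ⊆ L ⊆ M'` and for `K ⊆ M ⊆ M'`. `LData`
holds: `δL` commutes with the `g ∈ Gal(M'/M)`, because `δL g δL⁻¹ g⁻¹` is trivial on `M` (`g` is) and on `L`
(`δL` is, and `g` maps `L` to `L`); `δL^m` is trivial on `M` and `L`, so it is `1`. By `L_PRM`, `L_TYP` and
`L_LIFT` (the Selmer group of `(R, al)` in the sense of `RL.SelD` consists of `p`-th powers) `x` is a `p`-th
power. -/
def L_TRV : Prop :=
  ∀ (p : ℕ) [Fact p.Prime] (k : Type) [NormedField k] [NormedAlgebra ℚ_[p] k]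
    [IsUltrametricDist k], Nonempty (AlgebraicClosure ℚ →+* k) →
  ∀ (Lg : IwasawaLog p k) (n m : ℕ) (K M L M' M₁ M₁' Ω : Type) [Field K] [NumberField K] [Field M]
    [NumberField M] [Field L] [NumberField L] [Field M'] [NumberField M'] [Field M₁]
    [NumberField M₁] [Field M₁'] [NumberField M₁'] [Field Ω]
    [Algebra K M] [Algebra K L] [Algebra K M'] [Algebra M M'] [Algebra L M'] [IsScalarTower K M M']
    [IsScalarTower K L M'] [Algebra M M₁] [Algebra M M₁'] [Algebra M₁ M₁'] [Algebra M' M₁']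
    [IsScalarTower M M₁ M₁'] [IsScalarTower M M' M₁']
    [Algebra K Ω] [Algebra M Ω] [Algebra L Ω] [Algebra M' Ω]
    [IsScalarTower K M' Ω] [IsScalarTower M M' Ω] [IsScalarTower L M' Ω] [IsAlgClosure M' Ω],
    Sqr p n K M L M' → Sqr p n M M₁ M' M₁' →
  ∀ (δ : M ≃ₐ[K] M) (δL : M' ≃ₐ[L] M') (ζ : k) (Φ : ℤ_[p][X]) (P : (ZMod p)[X]),
    PhiData p m ζ Φ P → orderOf δ = m → finrank K M = m →
    (∀ x : M, δL (algebraMap M M' x) = algebraMap M M' (δ x)) → TorOK P δL →
  ∀ (T : Set (K →+* k)), (∀ σ ∈ T, CondT p K M L Ω δ ζ σ) →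
  ∀ (R : Set (HeightOneSpectrum (𝓞 M))) (al : HeightOneSpectrum (𝓞 M) → K),
    IsDat p R al → CondL K M L T R →
    (∀ x : Mˣ, Pool.Agent.Helper42.RD.SelD Lg (above T) P δ R al x → Pw p x) →
  ∀ a : M₁, a ≠ 0 → Match p R al a →
  ∀ x : M'ˣ, Sel Lg (above (above T : Set (L →+* k))) P δL (algebraMap M₁ M₁' a) x → Pw p x

/-- The extension `L/K` is admissible for the set `R` of primes of `K`, the set `T` of embeddings, and
`χ₀`: it is a Galois extension of degree a power of `p`; the primes in `R` split completely in `L`; the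
primes which are not in `R`, not induced by `T`, and split completely in `M` are unramified in `L`; at
every `σ ∈ T` one of the conditions: (A) the decomposition group is trivial in `Gal(L/K)`, (B) there is an
element `g` of the decomposition group with `χ₀(g)` not congruent to `ω(g)`. -/
structure Adm (p : ℕ) [Fact p.Prime] {K : Type} [Field K] [NumberField K]
    (T : Set (K →+* ℂ_[p])) (R : Set (HeightOneSpectrum (𝓞 K)))
    (M : IntermediateField K (AlgebraicClosure K)) [NumberField M] [Normal K M]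
    (χ₀ : (M ≃ₐ[K] M) →* ℂ_[p]ˣ) (L : IntermediateField K (AlgebraicClosure K)) [NumberField L] :
    Prop where
  gal : IsGalois K L
  deg : ∃ n : ℕ, finrank K L = p ^ n
  split : ∀ v ∈ R, ∀ V : HeightOneSpectrum (𝓞 L), Above V v → FreeP K V
  unr : ∀ v : HeightOneSpectrum (𝓞 K), v ∉ R → ¬ AtT T v →
    (∃ w : HeightOneSpectrum (𝓞 M), Above w v ∧ FreeP K w) →
    ∀ V : HeightOneSpectrum (𝓞 L), Above V v → ∀ x : K, ordv V (algebraMap K L x) = ordv v x
  sig : ∀ σ ∈ T,
    (∀ τ : AlgebraicClosure K →+* ℂ_[p], τ.comp (algebraMap K (AlgebraicClosure K)) = σ →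
      ∀ g : L ≃ₐ[K] L, (∀ x : L, ‖τ (g x : L)‖ = ‖τ (x : L)‖) → g = 1) ∨
    ∀ τ : AlgebraicClosure K →+* ℂ_[p], τ.comp (algebraMap K (AlgebraicClosure K)) = σ →
      ∃ (g : AlgebraicClosure K ≃ₐ[K] AlgebraicClosure K) (i : ℕ), (∀ x, ‖τ (g x)‖ = ‖τ x‖) ∧
        (∀ ξ : AlgebraicClosure K, ξ ^ p = 1 → g ξ = ξ ^ i) ∧
        ‖((χ₀ (AlgEquiv.restrictNormalHom M g) : ℂ_[p]ˣ) : ℂ_[p]) - i‖ = 1

/-- The `Σ`-Leopoldt statement for all the characters `χ = χ₀ φ ψ` with `φ` a faithful character of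
`Gal(N/K)` and `ψ` any character of `Gal(L/K)`: `χ` is a faithful character of `Gal(H/K)`, for a finite
Galois extension `H/K`, and equality means equality as characters of `Gal(Ω/K)`. -/
def TwistAll {p : ℕ} {K Ω k : Type} [Field K] [Field Ω] [Algebra K Ω] [NormedField k]
    (ιinf : Ω →+* ℂ) (ιp : Ω →+* k) (Lg : IwasawaLog p k) (S : Set (K →+* ℂ))
    (M : IntermediateField K Ω) [Normal K M] (χ₀ : (M ≃ₐ[K] M) →* kˣ)
    (N L : IntermediateField K Ω) [Normal K N] [Normal K L] : Prop :=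
  ∀ (H : IntermediateField K Ω) [FiniteDimensional K H] [Normal K H] (χ : (H ≃ₐ[K] H) →* kˣ)
    (φ : (N ≃ₐ[K] N) →* kˣ) (ψ : (L ≃ₐ[K] L) →* kˣ), Function.Injective χ → Function.Injective φ →
    (∀ g : Ω ≃ₐ[K] Ω, χ (AlgEquiv.restrictNormalHom H g) =
      χ₀ (AlgEquiv.restrictNormalHom M g) * φ (AlgEquiv.restrictNormalHom N g) *
        ψ (AlgEquiv.restrictNormalHom L g)) →
    InjectiveOn (finrank K H) χ unitsHom (logSigma ιinf ιp S Lg)

/-- **L_TRK** (roots of unity). Let `X` be a number field, Galois over `K`, `M ⊆ X` with `Gal(X/M)` of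
`p`-power order and `[M : K] = m` prime to `p`, `δ' ∈ Gal(X/K)` with `δ'^m = 1` whose restriction to `M`
generates `Gal(M/K)`. If `M` is not contained in `K(ξ)` for any primitive `p`-th root of unity `ξ ∈ X`,
then `TorOK P δ'`.

PROOF (from `Helper42.RD.E_TOR`). Let `ξ ∈ X` be a primitive `p`-th root of unity. `K(ξ)/K` is Galois of
degree dividing `p - 1`; the restriction of `Gal(X/M)` to `K(ξ)` is a group whose order is a power of `p`
and divides `p - 1`, so it is trivial and `ξ ∈ M`. Suppose `δ'^e ξ ≠ ξ` for all `0 < e < m`; then no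
element `≠ 1` of `Gal(M/K) = ⟨δ'|_M⟩` fixes `ξ` and `M = K(ξ)`, contrary to the hypothesis. So
`E_TOR` applies. -/
def L_TRK : Prop :=
  ∀ (p : ℕ) [Fact p.Prime] (k : Type) [NormedField k] [NormedAlgebra ℚ_[p] k] (m : ℕ) (ζ : k)
    (Φ : ℤ_[p][X]) (P : (ZMod p)[X]), PhiData p m ζ Φ P →
  ∀ (K : Type) [Field K] [NumberField K] (M X : IntermediateField K (AlgebraicClosure K))
    [NumberField X] [IsGalois K M] [IsGalois K X], M ≤ X → finrank K M = m →
    (∃ n : ℕ, finrank K X = m * p ^ n) →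
    (∀ ξ : AlgebraicClosure K, IsPrimitiveRoot ξ p → ¬ M ≤ IntermediateField.adjoin K {ξ}) →
  ∀ (δ' : X ≃ₐ[K] X), δ' ^ m = 1 →
    (∀ e : ℕ, 0 < e → e < m → ∃ x : X, (x : AlgebraicClosure K) ∈ M ∧ (δ' ^ e) x ≠ x) →
    TorOK P δ'

/-- **L_GOO** (a matching extension is good for all the admissible `L`). The hypotheses on `K`, `M`, `χ₀`,
the datum, `M₁`, `a`, `j`, `s`, `N` are those of `Helper42.RD.E_GOO`; `L/K` is admissible for the set of the
primes of `K` below `R`, and does not contain `N`.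

PROOF (from `RP.S_P1`, `L_SQR`, `L_TRV`, `L_TRK`; compare the proof of `Helper42.RD.E_GOO`). Let
`Ω = AlgebraicClosure K`, `k = ℂ_[p]`, `T = TSet ιinf ιp S`, `m = [M : K]`, `[L : K] = p^n`. Let `M' = M L`,
`M₁' = j(M₁) L`, `H~ = M' N`, `H₁~ = M₁' N`, subfields of `Ω`. `M'/K` is Galois, `Sqr p n K M L M'` holds.
`j(M₁)/M` is Galois of degree prime to `p`, so `Sqr p n M (j(M₁)) M' M₁'` holds too (`L_SQR`: `[M' : M] = p^n`;
an automorphism of `M₁'/M` trivial on `j(M₁)` and `M'` is trivial).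

`N` is not contained in `M'`: `Gal(M'/K) = Gal(M/K) × Gal(L/K)`; if `N ⊆ M'`, `Gal(N/K)`, of order `p`, is a
quotient of it in which the image of the first factor (of order prime to `p`) is trivial, so `N ⊆ L`.
Similarly `N` is not contained in `M₁'`: otherwise `N M ⊆ M₁'` with `Gal(NM/M)` of order `p` (or 1), and
`Gal(M₁'/M) = Gal(j(M₁)/M) × Gal(M'/M)` gives `N M ⊆ M'`. So `[H~ : M'] = p = [H₁~ : M₁']` and
`Gal(H~/K) → Gal(M'/K) × Gal(N/K)` is an isomorphism. `s ∈ H₁~` (`Ω/H₁~` is Galois, and the hypothesis on the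
automorphisms), `s ∉ M₁'`: the field `j(M₁) N` contains `s`, has degree `p` over `j(M₁)`, and `s ∉ j(M₁)`, so
`j(M₁) N = j(M₁)(s)`; `s ∈ M₁'` would give `N ⊆ M₁'`. So `H₁~ = M₁'(s)`; let `γ₁ ∈ Gal(H₁~/M₁')` with
`γ₁ s = ε s`, `γ` its restriction to `H~`, trivial on `M'`, of order `p`. Let `δL ∈ Gal(M'/L)` extend
`δ` and be trivial on `L`, of order `m`, and `δ' ∈ Gal(H~/K)` extend `δL` and be trivial on `N`; it is
trivial on `L`. `γ` and `δ'` commute (product decomposition), they are in `Gal(H~/L)`.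

`HData` holds with `K := L`, `M := M'`, `H := H~`, `M₁ := M₁'`, `H₁ := H₁~`, `T := above T` (embeddings of
`L`; equality of norms on `L` implies equality on `K`, so it is place closed), `a`, `s`.
`TorOK P δ'` by `L_TRK` for `X = H~`, `[H~ : K] = m p^(n+1)`, and `TorOK P δL` by `L_TRK` for `X = M'`
(`m > 1`, `δ` has order `m`). By `L_TRV` the twisted Selmer group of `a` for `M'/L` consists of `p`-th powers:
`CondL` with `R`: the primes of `K` below `R` are those of the set in `Adm`; `CondT` with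
`χ₀(δ^r) = ζ^r` for `ζ = χ₀(δ)`: the restriction of `g` to `M` is a power `δ^r` of the generator `δ`.

*Conclusion.* Let `H`, `χ`, `φ`, `ψ` be as in `TwistAll`, `x ∈ k ⊗ 𝓞_Hˣ` and `z = eChi x`, killed by all
`ℓ ∈ logSigma`. `H ⊆ H~`: an automorphism `g` of `Ω` trivial on `H~` has `χ(g|_H) = 1`, so it is trivial
on `H`. Let `z~` be the image of `z` in `k ⊗ 𝓞_{H~}ˣ` (this map is injective as `k` is flat over `ℤ` and
`𝓞_Hˣ → 𝓞_{H~}ˣ` is injective). For `g ∈ Gal(H/K)`, `g z = χ(g) z` (reindex the sum defining `eChi`). So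
`γ z~ = χ(γ|_H) z~ = φ(γ|_N) z~` and `δ' z~ = χ₀(δ) z~ = ζ z~`; `φ(γ|_N)` is a primitive `p`-th root of
unity since `φ` is injective. If `τ : H~ → k` is above `T` then its restriction to `H` is `ιp ∘ σ` with
`ιinf ∘ σ|_K ∈ S` (see `E_GOO`), so `z` is killed by `logUnits (τ|_H)` and `z~` by `logUnits τ`. By `RP.S_P1`
`z~ = 0`, so `z = 0`. -/
def L_GOO : Prop :=
  ∀ (p : ℕ) [Fact p.Prime] (K : Type) [Field K] [NumberField K]
    (ιinf : AlgebraicClosure K →+* ℂ) (ιp : AlgebraicClosure K →+* ℂ_[p]) (Lg : IwasawaLog p ℂ_[p])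
    (S : Set (K →+* ℂ)), PlaceClosed (TSet ιinf ιp S) →
  ∀ (M : IntermediateField K (AlgebraicClosure K)) [NumberField M] [IsGalois K M]
    (χ₀ : (M ≃ₐ[K] M) →* ℂ_[p]ˣ), Function.Injective χ₀ → (finrank K M).Coprime p →
    (∀ ξ : AlgebraicClosure K, IsPrimitiveRoot ξ p → ¬ M ≤ IntermediateField.adjoin K {ξ}) →
  ∀ (δ : M ≃ₐ[K] M) (Φ : ℤ_[p][X]) (P : (ZMod p)[X]), orderOf δ = finrank K M →
    PhiData p (finrank K M) ((χ₀ δ : ℂ_[p]ˣ) : ℂ_[p]) Φ P →
  ∀ (R : Set (HeightOneSpectrum (𝓞 M))) (al : HeightOneSpectrum (𝓞 M) → K), IsDat p R al →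
    (∀ x : (M)ˣ, Pool.Agent.Helper42.RD.SelD Lg (above (TSet ιinf ιp S)) P δ R al x → Pw p x) →
  ∀ (M₁ : Type) [Field M₁] [NumberField M₁] [Algebra M M₁] [IsGalois M M₁],
    (finrank M M₁).Coprime p → ∀ (ε : M₁) (a : 𝓞 M₁), IsPrimitiveRoot ε p → a ≠ 0 →
    (p : 𝓞 M₁) ^ 3 ∣ a - 1 → Match p R al (a : M₁) →
  ∀ (j : M₁ →+* AlgebraicClosure K), (∀ x : M, j (algebraMap M M₁ x) = x) →
  ∀ s : AlgebraicClosure K, s ^ p = j a → (¬ ∃ y : M₁, j y = s) →
  ∀ (N : IntermediateField K (AlgebraicClosure K)) [IsGalois K N], finrank K N = p →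
    (∀ g : AlgebraicClosure K ≃ₐ[K] AlgebraicClosure K, (∀ y ∈ N, g y = y) →
      (∀ x : M₁, g (j x) = j x) → g s = s) →
  ∀ (L : IntermediateField K (AlgebraicClosure K)) [NumberField L] [IsGalois K L], ¬ N ≤ L →
    Adm p (TSet ιinf ιp S) {v | ∃ w ∈ R, Above w v} M χ₀ L →
  TwistAll ιinf ιp Lg S M χ₀ N L

/-- **L_INM** (infinitely many `N` for one datum, good for all the pairs with trivial Selmer group and for
all admissible `L`; compare `Helper76.RD.E_INM`).

PROOF (from `Helper42.RD.E_TOW`, `E_EXA`, `E_KUM` and `L_GOO`). The proof of `Helper76.RD.E_INM`, with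
`L_GOO` in place of `E_GOO`. -/
def L_INM : Prop :=
  ∀ (p : ℕ) [Fact p.Prime] (K : Type) [Field K] [NumberField K] [IsTotallyComplex K]
    (ιinf : AlgebraicClosure K →+* ℂ) (ιp : AlgebraicClosure K →+* ℂ_[p]) (Lg : IwasawaLog p ℂ_[p])
    (M : IntermediateField K (AlgebraicClosure K)) [NumberField M] [IsGalois K M],
    (finrank K M).Coprime p →
    (∀ ξ : AlgebraicClosure K, IsPrimitiveRoot ξ p → ¬ M ≤ IntermediateField.adjoin K {ξ}) →
  ∀ (R : Set (HeightOneSpectrum (𝓞 M))) (al : HeightOneSpectrum (𝓞 M) → K), IsDat p R al →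
  {N : IntermediateField K (AlgebraicClosure K) | finrank K N = p ∧ ∃ _ : IsGalois K N,
    ∀ (S : Set (K →+* ℂ)), PlaceClosed (TSet ιinf ιp S) →
    ∀ (χ₀ : (M ≃ₐ[K] M) →* ℂ_[p]ˣ), Function.Injective χ₀ →
    ∀ (δ : M ≃ₐ[K] M) (Φ : ℤ_[p][X]) (P : (ZMod p)[X]), orderOf δ = finrank K M →
    PhiData p (finrank K M) ((χ₀ δ : ℂ_[p]ˣ) : ℂ_[p]) Φ P →
    (∀ x : (M)ˣ, Pool.Agent.Helper42.RD.SelD Lg (above (TSet ιinf ιp S)) P δ R al x → Pw p x) →
    ∀ (L : IntermediateField K (AlgebraicClosure K)) [NumberField L] [IsGalois K L], ¬ N ≤ L →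
      Adm p (TSet ιinf ιp S) {v | ∃ w ∈ R, Above w v} M χ₀ L →
      TwistAll ιinf ιp Lg S M χ₀ N L}.Infinite

/-- **L_RSQ** (the theorem). Let `p` be a prime, `K` a number field, `M/K` a Galois extension of degree
prime to `p`, not contained in `K(μ_p)`, and `(S i, χ₀ i)`, `i ∈ ι`, a family of pairs of a `p`-ordinary
CM type of `K` and a faithful character of `Gal(M/K)`, which fall into at most `p` classes, where two
pairs in the same class have the same type and characters conjugate by a power of Frobenius. There are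
a finite set `R` of primes of `K` and infinitely many cyclic extensions `N/K` of degree `p` such that for
all `i`, all extensions `L/K` not containing `N` which are admissible for `R`, `S i`, `χ₀ i`, all faithful
characters `φ` of `Gal(N/K)` and all characters `ψ` of `Gal(L/K)` the `Σ`-Leopoldt statement holds for
`χ₀ i φ ψ`.

PROOF (from `RP.S_PHI`, `Helper76.RD.D_COQ`, `E_TOR`, `Helper76.RD.E_FRB`, `L_INM`). The proof of
`Helper76.RD.E_RSQ`, with `L_INM` in place of `E_INM` and `R = {v | ∃ w ∈ R_M, Above w v}`, `R_M` the set of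
the datum (finite). -/
def L_RSQ : Prop :=
  ∀ (p : ℕ) [Fact p.Prime] (K : Type) [Field K] [NumberField K] (ιinf : AlgebraicClosure K →+* ℂ)
    (ιp : AlgebraicClosure K →+* ℂ_[p]) (Lg : IwasawaLog p ℂ_[p])
    (M : IntermediateField K (AlgebraicClosure K)) [NumberField M] [IsGalois K M],
    (finrank K M).Coprime p →
    (∀ ξ : AlgebraicClosure K, IsPrimitiveRoot ξ p → ¬ M ≤ IntermediateField.adjoin K {ξ}) →
  ∀ (ι : Type) [Nonempty ι] (S : ι → Set (K →+* ℂ)) (χ₀ : ι → ((M ≃ₐ[K] M) →* ℂ_[p]ˣ))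
    (c : ι → Fin p), (∀ i, IsCMType (S i)) →
    (∀ i, ∀ σ τ : K →+* AlgebraicClosure K, (∀ x, ‖ιp (σ x)‖ = ‖ιp (τ x)‖) →
      (ιinf.comp σ ∈ S i ↔ ιinf.comp τ ∈ S i)) →
    (∀ i, Function.Injective (χ₀ i)) →
    (∀ i j, c i = c j → S i = S j ∧ ∃ r : ℕ, ∀ g, χ₀ i g = χ₀ j g ^ p ^ r) →
  ∃ R : Set (HeightOneSpectrum (𝓞 K)), R.Finite ∧
    {N : IntermediateField K (AlgebraicClosure K) | finrank K N = p ∧ ∃ _ : IsGalois K N,
      ∀ i, ∀ (L : IntermediateField K (AlgebraicClosure K)) [NumberField L] [IsGalois K L],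
        ¬ N ≤ L → Adm p (TSet ιinf ιp (S i)) R M (χ₀ i) L →
        TwistAll ιinf ιp Lg (S i) M (χ₀ i) N L}.Infinite

end Pool.Agent.Helper77.RL
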