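import Pool.Agent.Helper77.RL.Act

/-!
# Project RL (MP_fc6b1e_nt): lifting a trivial Selmer group to a `p`-extension

`M'/M` is a Galois extension of degree `p^n` of number fields with group `G`; `M/K` is cyclic of degree
`m` prime to `p` with generator `δ`, and `δ₁` is an automorphism of `M'/K` which extends `δ`, commutes
with `G` and satisfies `δ₁^m = 1`. A datum consists of a set `R` of primes of `M` and elements `al v`;
`SelD` is its Selmer group. `Ω` is an algebraic closure of `M'`. All statements are for all primes `p`,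
with complete proofs. For `Q ∈ ℤ[X]` the operator `Q(δ)` on `Mˣ` is `act δ Q` (file `RL/Act.lean`, which
contains the rules of computation and `act_lift : act δ (lift P) x = pol P δ x`).
-/

namespace Pool.Agent.Helper77.RL

open NumberField Polynomial Module IsDedekindDomain Pool.Agent.Helper51.SigLeo
open Pool.Agent.Helper51.RP

/-- The Selmer group of the datum `(R, al)`: the `x` in `Mˣ` such that `P(δ) x` is a `p`-th power, the
valuation of `x` is a multiple of `p` outside `R`, at `v ∈ R` the product of `x` and of a power of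
`al v` is locally a `p`-th power, and the logarithmic condition holds at the places of `T`. -/
structure SelD {p : ℕ} {k : Type} [NormedField k] {K M : Type} [Field K] [Field M] [NumberField M]
    [Algebra K M] (L : IwasawaLog p k) (T : Set (M →+* k)) (P : (ZMod p)[X]) (δ : M ≃ₐ[K] M)
    (R : Set (HeightOneSpectrum (𝓞 M))) (al : HeightOneSpectrum (𝓞 M) → M) (x : Mˣ) : Prop where
  pol : Pw p (pol P δ x)
  dvd : ∀ v, v ∉ R → (p : ℤ) ∣ ordv v (x : M)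
  tame : ∀ v ∈ R, ∃ j : ℕ, LocPow p v ((x : M) * al v ^ j)
  sig : LocSig L T x

/-- The prime `v` is one of the primes induced by the embeddings in `T`. -/
def AtT {k : Type} [NormedField k] {M : Type} [Field M] [NumberField M] (T : Set (M →+* k))
    (v : HeightOneSpectrum (𝓞 M)) : Prop :=
  ∃ τ ∈ T, ∀ b : 𝓞 M, b ∈ v.asIdeal ↔ ‖τ (b : M)‖ < 1

/-- The image of `x` in `M'ˣ`. -/
def up {M M' : Type} [Field M] [Field M'] [Algebra M M'] (x : Mˣ) : M'ˣ :=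
  Units.map ((algebraMap M M' : M →+* M') : M →* M') x

/-- The data of the lifting lemmas. -/
structure LData (p : ℕ) {K M M' : Type} [Field K] [Field M] [Field M'] [Algebra K M]
    [Algebra M M'] [Algebra K M'] (m n : ℕ) (δ : M ≃ₐ[K] M) (δ₁ : M' ≃ₐ[K] M') : Prop where
  gal : IsGalois M M'
  deg : finrank M M' = p ^ n
  ext : ∀ x : M, δ₁ (algebraMap M M' x) = algebraMap M M' (δ x)
  pow : δ₁ ^ m = 1
  comm : ∀ (g : M' ≃ₐ[M] M') (y : M'), g (δ₁ y) = δ₁ (g y)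

/-- The data at the primes: `R'` consists of the primes of `M'` above the primes in `R` and `al'` is the
pull back of `al`; above `v ∈ R` there is a prime of `M'` with the same completion; above the primes
`v ∉ R` which are not induced by `T₁` and have trivial decomposition group in `Gal(M/K)` there is a
prime of `M'` which is not ramified over `v`. -/
structure LPrimes (K : Type) {k : Type} [NormedField k] {M M' : Type} [Field K] [Field M]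
    [NumberField M] [Field M'] [NumberField M'] [Algebra K M] [Algebra M M'] (T₁ : Set (M →+* k))
    (R : Set (HeightOneSpectrum (𝓞 M))) (al : HeightOneSpectrum (𝓞 M) → M)
    (R' : Set (HeightOneSpectrum (𝓞 M'))) (al' : HeightOneSpectrum (𝓞 M') → M') : Prop where
  iff : ∀ W v, Above W v → (W ∈ R' ↔ v ∈ R)
  al_eq : ∀ W v, Above W v → v ∈ R → al' W = algebraMap M M' (al v)
  ne : ∀ v ∈ R, al v ≠ 0
  split : ∀ v ∈ R, ∃ W : HeightOneSpectrum (𝓞 M'), Above W v ∧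
    (∀ x : M, ordv W (algebraMap M M' x) = ordv v x) ∧
    ∀ y : 𝓞 M', ∃ x : 𝓞 M, y - algebraMap (𝓞 M) (𝓞 M') x ∈ W.asIdeal
  unr : ∀ v ∉ R, ¬ AtT T₁ v → FreeP K v → ∃ W : HeightOneSpectrum (𝓞 M'), Above W v ∧
    ∀ x : M, ordv W (algebraMap M M' x) = ordv v x

/-- Condition (A) for the embedding `τ'` of `M'`: the decomposition group in `Gal(M'/M)` of the place
induced by `τ'` is trivial. -/
def SplitAt {k : Type} [NormedField k] (M : Type) {M' : Type} [Field M] [Field M'] [Algebra M M']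
    (τ' : M' →+* k) : Prop :=
  ∀ g : M' ≃ₐ[M] M', (∀ x, ‖τ' (g x)‖ = ‖τ' x‖) → g = 1

/-- Condition (B) for the embedding `τ` of `Ω`: there is an element `s` of the decomposition group of the
place induced by `τ` whose restriction to `M'` is a power `δ₁^r`, which acts on the `p`-th roots of
unity as the integer `i`, and the polynomials `P` and `X^r - i` are coprime. -/
def NoTor {p : ℕ} {k : Type} [NormedField k] {K M' Ω : Type} [Field K] [Field M'] [Algebra K M']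
    [Field Ω] [Algebra M' Ω] (P : (ZMod p)[X]) (δ₁ : M' ≃ₐ[K] M') (τ : Ω →+* k) : Prop :=
  ∃ (s : Ω →+* Ω) (r i : ℕ), (∀ x, ‖τ (s x)‖ = ‖τ x‖) ∧
    (∀ x : M', s (algebraMap M' Ω x) = algebraMap M' Ω ((δ₁ ^ r) x)) ∧
    (∀ ξ : Ω, ξ ^ p = 1 → s ξ = ξ ^ i) ∧ IsCoprime P (X ^ r - C (i : ZMod p))

/-- **L_FIX** (invariants of a `p`-group). Let `V` be a subgroup of `M'ˣ` which contains the `p`-th
powers and is stable under `Gal(M'/M)`, a group of order `p^n`. If `V` contains an element which is not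
a `p`-th power, it contains such an element `x` with `g(x)/x` a `p`-th power for all `g`.

PROOF. Let `x₀ ∈ V` be not a `p`-th power, `V₁ ⊆ V` the subgroup generated by the `p`-th powers and the
finitely many `g(x₀)`. `V₁/`(`p`-th powers) is a finite abelian group of exponent `p`, not trivial, so
its order is divisible by `p`; the `p`-group `Gal(M'/M)` acts on it, so the number of fixed points is
divisible by `p` (Mathlib: `IsPGroup.card_modEq_card_fixedPoints`) and there is a fixed point which is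
not trivial. -/
def L_FIX : Prop :=
  ∀ (p : ℕ) [Fact p.Prime] (M M' : Type) [Field M] [Field M'] [Algebra M M'] [IsGalois M M']
    [FiniteDimensional M M'] (n : ℕ), finrank M M' = p ^ n →
  ∀ V : Subgroup M'ˣ, (∀ x, Pw p x → x ∈ V) →
    (∀ (g : M' ≃ₐ[M] M'), ∀ x ∈ V, Units.map ((g : M' →+* M') : M' →* M') x ∈ V) →
    (∃ x ∈ V, ¬ Pw p x) →
  ∃ x ∈ V, ¬ Pw p x ∧ ∀ g : M' ≃ₐ[M] M', Pw p (Units.map ((g : M' →+* M') : M' →* M') x / x)

/-- **L_POL** (the operators `Q(δ)`). Let `Q` be a polynomial over `ℤ` whose reduction modulo `p` is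
`1 + P C'`. For an automorphism `δ` of `M/K` and `x ∈ Mˣ` with `P(δ) x` a `p`-th power, `Q(δ) x` is `x`
times a `p`-th power.

PROOF. `lift P` and `lift C'` have reductions `P`, `C'` (`lift_map`), so `Q = 1 + lift P * lift C' + p E`
with `E ∈ ℤ[X]` (a polynomial over `ℤ` whose reduction is zero is `p` times a polynomial). With the rules
of `RL/Act.lean`: `Q(δ) x = x · C'(δ)(P(δ) x) · (E(δ) x)^p`, `act δ (lift P) x = pol P δ x = r^p`, and
`act δ (lift C') (r^p) = (act δ (lift C') r)^p`. -/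
def L_POL : Prop :=
  ∀ (p : ℕ) [Fact p.Prime] (K M : Type) [Field K] [Field M] [Algebra K M] (δ : M ≃ₐ[K] M)
    (P C' : (ZMod p)[X]) (Q : ℤ[X]), Q.map (Int.castRingHom (ZMod p)) = 1 + P * C' →
  ∀ x : Mˣ, Pw p (pol P δ x) → ∃ y : Mˣ, act δ Q x = x * y ^ p

/-- **L_DES** (descent of classes). Let `x ∈ M'ˣ` with `P(δ₁) x` a `p`-th power and `g(x)/x` a `p`-th
power for all `g ∈ Gal(M'/M)`. There is `x₀ ∈ Mˣ` with `P(δ) x₀` a `p`-th power in `Mˣ` such that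
`x/x₀` is a `p`-th power in `M'ˣ`.

PROOF. Let `i` be given by `TorOK P δ₁`: `δ₁ ξ = ξ^i` for the roots of unity of `p`-power order,
`P(i) ≠ 0`. As `P` is irreducible and `P(i) ≠ 0`, `P` is coprime to `X - i` (if `P` divided `X - i`
they would be associated and `P(i) = 0`); let `B ∈ ℤ[X]` be such that `Q = B (X - i)` has reduction
`1 + P C'`. Write `Q(δ₁) y = act δ₁ Q y`; `Q(δ₁)` commutes with `G = Gal(M'/M)` (`act_map` with `f = g`)
and kills the `ξ` with `ξ^p = 1`. For `g ∈ G` let `g(x) = x y_g^p`; put `z = Q(δ₁) x`, `w_g = Q(δ₁) y_g`,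
so `g(z) = z w_g^p`. `ε = y_{gh}/(y_g g(y_h))` satisfies `ε^p = 1`, so `w_{gh} = w_g g(w_h)`. By Hilbert
90 (Mathlib: `groupCohomology.isMulCoboundary₁_of_isMulCocycle₁_of_aut_to_units`) there is `t ∈ M'ˣ`
with `w_g = g(t)/t`; then `z t^(-p)` is fixed by `G`, so it is the image of some `x₁ ∈ Mˣ`. Put
`x₀ = Q(δ) x₁`.
`P(δ) x₁ = P(δ₁) z/(P(δ₁) t)^p = Q(δ₁)(P(δ₁) x)/(P(δ₁) t)^p = r^p` in `M'` (`act_map` with
`f = algebraMap M M'`). For `g ∈ G`, `(g(r)/r)^p = 1` because `P(δ) x₁ ∈ M`; so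
`g(Q(δ₁) r)/Q(δ₁) r = Q(δ₁)(g(r)/r) = 1` and `Q(δ₁) r` is in `M`; `P(δ) x₀ = Q(δ)(P(δ) x₁) =
(Q(δ₁) r)^p` is a `p`-th power in `M`.
`x₀ = Q(δ₁)(z t^(-p)) = Q(δ₁)(Q(δ₁) x) · (..)^p`, which by `L_POL` (twice; `P(δ₁)(Q(δ₁) x)` is a `p`-th
power) is `x` times a `p`-th power of `M'`. -/
def L_DES : Prop :=
  ∀ (p : ℕ) [Fact p.Prime] (K M M' : Type) [Field K] [Field M] [Field M'] [Algebra K M]
    [Algebra M M'] [Algebra K M'] [IsScalarTower K M M'] [FiniteDimensional M M'] (m n : ℕ)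
    (δ : M ≃ₐ[K] M) (δ₁ : M' ≃ₐ[K] M') (P : (ZMod p)[X]), Irreducible P →
    LData p m n δ δ₁ → TorOK P δ₁ →
  ∀ x : M'ˣ, Pw p (pol P δ₁ x) →
    (∀ g : M' ≃ₐ[M] M', Pw p (Units.map ((g : M' →+* M') : M' →* M') x / x)) →
  ∃ x₀ : Mˣ, Pw p (pol P δ x₀) ∧ Pw p (x / up x₀)

/-- **L_EXP** (a uniform exponent). Let `T` be a set of embeddings of a number field `M` in `k`. There
are `q' ≥ 1` prime to `p` and `b ≥ 1` such that `‖τ(z)^(q' p^b) - 1‖ ≤ p^(-2)` for all `z ∈ Mˣ` with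
`‖τ z‖ = 1` for all `τ ∈ T`, and all `τ ∈ T`.

PROOF. The prime ideals `𝔓_τ = {β ∈ 𝓞_M : ‖τ β‖ < 1}`, `τ ∈ T`, contain `p` (`k` is ultrametric, so
integral elements have norm `≤ 1`); they are finitely many. Let `n` be so large that `β ∈ 𝔓_τ^n` implies
`‖τ β‖ ≤ p^(-2)` (`𝔓_τ` is finitely generated, `‖τ β‖ ≤ c^n` with `c < 1` the maximum of the norms of
the generators) and `J = ∏ 𝔓^n` over the different `𝔓_τ`. Let `z` be as in the statement; write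
`z = α/β` with `α, β ∈ 𝓞_M` outside of all the `𝔓_τ`: let `z = α₀/β₀`; by the Chinese remainder theorem
and the fact that `ord_𝔓(α₀) = ord_𝔓(β₀)` for these `𝔓` there is `γ ∈ M` with `ord_𝔓(γ) = -ord_𝔓(β₀)`
at these `𝔓` and `γ α₀, γ β₀ ∈ 𝓞_M` (choose `γ` in the fractional ideal inverse of `(α₀, β₀)`, not in
its product with any of the finitely many `𝔓`). Let `q` be the order of the finite group `(𝓞_M/J)ˣ`:
`α^q ≡ β^q ≡ 1 mod J`, so `‖τ(α)^q - 1‖, ‖τ(β)^q - 1‖ ≤ p^(-2)` and `‖τ(z)^q - 1‖ ≤ p^(-2)`. Write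
`q = q' p^(b')` and take `b = b' + 1` (if `‖v - 1‖ ≤ p^(-2)` then `‖v^p - 1‖ ≤ p^(-2)`). -/
def L_EXP : Prop :=
  ∀ (p : ℕ) [Fact p.Prime] (k : Type) [NormedField k] [NormedAlgebra ℚ_[p] k]
    [IsUltrametricDist k] (M : Type) [Field M] [NumberField M] (T : Set (M →+* k)),
  ∃ q' b : ℕ, 0 < q' ∧ q'.Coprime p ∧ 1 ≤ b ∧ ∀ z : Mˣ, (∀ τ ∈ T, ‖τ (z : M)‖ = 1) →
    ∀ τ ∈ T, ‖τ (z : M) ^ (q' * p ^ b) - 1‖ ≤ (1 / p : ℝ) ^ 2

/-- **L_ISO** (small logarithm implies close to 1). If `‖v - 1‖ ≤ p^(-2)` then `‖L v‖ = ‖v - 1‖`.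

PROOF. `t = v - 1`; `L v - t = ∑_{j ≥ 1} (-1)^j t^(j+1)/(j+1)`, whose terms have norm
`≤ ‖t‖ · ‖t‖^j (j+1) ≤ ‖t‖ p^(-2j) (j+1) ≤ ‖t‖/2` (`‖j + 1‖ ≥ 1/(j+1)` in `ℚ_p`;
`2 (j+1) ≤ 4^j`). So `‖L v - t‖ ≤ ‖t‖/2`, and `‖L v‖ = ‖t‖` by the ultrametric property (if `t = 0`,
`L v = 0`). -/
def L_ISO : Prop :=
  ∀ (p : ℕ) [Fact p.Prime] (k : Type) [NormedField k] [NormedAlgebra ℚ_[p] k]
    [IsUltrametricDist k] (L : IwasawaLog p k) (v : kˣ), ‖(v : k) - 1‖ ≤ (1 / p : ℝ) ^ 2 →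
    ‖L.toFun v‖ = ‖(v : k) - 1‖

/-- **L_ROU** (elements close to roots of unity). Let `F` be a field which contains a primitive `p^b`-th
root of unity (`b ≥ 1`), `τ : F → k` an embedding, `s : F → F` a ring homomorphism with
`‖τ(s x)‖ = ‖τ x‖` and `s ξ = ξ^i` for `ξ^p = 1`. If `‖τ(Z^(p^b) - 1)‖ ≤ ε^(p^b)`, `0 < ε < 1`, and `Z_j`
is defined by `Z_0 = Z`, `Z_{j+1} = s(Z_j)/Z_j^i`, then `‖τ(Z_b - 1)‖ ≤ ε`.

PROOF. Write `|x| = ‖τ x‖`. `Z^(p^b) - 1 = ∏_ξ (Z - ξ)` over the `p^b` roots of unity `ξ` with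
`ξ^(p^b) = 1`; so one of the factors has `|.| ≤ ε`, `Z = ξ (1 + e)`, `|e| ≤ ε`. Let `ξ₀` be a primitive
`p^b`-th root of unity, `s(ξ₀) = ξ₀^(i')` (a root of unity of order `p^b`, all of them are powers of
`ξ₀`); since `ξ₁ = ξ₀^(p^(b-1))` has order `p` and `s ξ₁ = ξ₁^(i') = ξ₁^i`, `i' ≡ i mod p`. CLAIM:
`Z_j = ξ_j (1 + e_j)` with `ξ_j^(p^(b-j)) = 1`, `|e_j| ≤ ε` for `j ≤ b`. Indeed `s(Z_j)/Z_j^i =
(s(ξ_j)/ξ_j^i) · (1 + s(e_j))/(1 + e_j)^i`; `s(ξ_j)/ξ_j^i = ξ_j^(i' - i)` is a power of `ξ_j^p`, so it is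
killed by `p^(b-j-1)`; the second factor is `1 + O(ε)` (`|1 + e_j| = 1` as `ε < 1`). For `j = b`:
`ξ_b = 1`. -/
def L_ROU : Prop :=
  ∀ (p : ℕ) [Fact p.Prime] (k : Type) [NormedField k] [IsUltrametricDist k] (F : Type) [Field F]
    (τ : F →+* k) (b i : ℕ), 1 ≤ b → (∃ ξ : F, IsPrimitiveRoot ξ (p ^ b)) →
  ∀ s : F →+* F, (∀ x, ‖τ (s x)‖ = ‖τ x‖) → (∀ ξ : F, ξ ^ p = 1 → s ξ = ξ ^ i) →
  ∀ (ε : ℝ), 0 < ε → ε < 1 → ∀ Z : ℕ → F, ‖τ (Z 0 ^ p ^ b - 1)‖ ≤ ε ^ p ^ b →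
    (∀ j, Z (j + 1) = s (Z j) / Z j ^ i) → ‖τ (Z b - 1)‖ ≤ ε

/-- **L_WGT** (weights). Let `M'/M` be Galois of degree `p^n`, `A`, `B` sets of embeddings of `M` in `k`,
and suppose `SplitAt M τ'` for all extensions `τ'` of the `τ ∈ A`. For every `ε > 0` there is `E ∈ M'`
such that every `τ ∈ A ∪ B` satisfies one of: (b) `τ ∈ B` and `‖τ'(E) - p^(-n)‖ ≤ ε` for every extension
`τ'` of `τ`; (a) there is an extension `τ'` of `τ` with `‖τ'(E) - 1‖ ≤ ε` and `‖τ'(g E)‖ ≤ ε` for all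
`g ≠ 1` in `Gal(M'/M)`.

PROOF. For an embedding `τ'` of `M'` let `𝔓(τ') = {β ∈ 𝓞_{M'} : ‖τ' β‖ < 1}`, a prime above `p`. Equal
primes mean equal norms (see `RP.S_RAT` (1)). For every prime `v` of `M` induced by some `σ ∈ A` choose
one prime `W(v)` of `M'` above `v`. Let `E₁ ∈ 𝓞_{M'}` be given by the Chinese remainder theorem with, for
`N` large, `E₁ ≡ p^n mod W(v)^N`, `E₁ ≡ 0 mod W^N` for the other primes `W` above these `v`, and
`E₁ ≡ 1 mod W^N` for the primes `W` above the primes `v` induced by some `τ ∈ B` and by no `σ ∈ A`.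
`E = E₁/p^n`. Let `τ ∈ A ∪ B` and let `v` be the prime of `M` induced by `τ`. If `v` is not induced by an
element of `A` then `τ ∈ B` and `‖τ'(E) - p^(-n)‖ = p^n ‖τ'(E₁) - 1‖ ≤ ε` for all `τ'` above `τ`. If `v` is
induced by `σ ∈ A`: the extensions of `τ` to `M'` are the `τ'₀ ∘ g`, and the primes of `M'` above `v` are
permuted transitively by `Gal(M'/M)`, so there is an extension `τ'` of `τ` with `𝔓(τ') = W(v)`, and
similarly an extension `σ'` of `σ` with `𝔓(σ') = W(v)`. Then `‖τ'(E) - 1‖ ≤ ε`, and for `g ≠ 1` the prime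
`𝔓(τ' ∘ g) = g^(-1) W(v) = 𝔓(σ' ∘ g)` is different from `W(v) = 𝔓(σ')` (otherwise `σ' ∘ g` and `σ'` have
equal norms, and `SplitAt` gives `g = 1`), so `‖τ'(g E)‖ ≤ ε`. -/
def L_WGT : Prop :=
  ∀ (p : ℕ) [Fact p.Prime] (k : Type) [NormedField k] [NormedAlgebra ℚ_[p] k]
    [IsUltrametricDist k], Nonempty (AlgebraicClosure ℚ →+* k) →
  ∀ (M M' : Type) [Field M] [NumberField M] [Field M'] [NumberField M'] [Algebra M M']
    [IsGalois M M'] (n : ℕ), finrank M M' = p ^ n →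
  ∀ A B : Set (M →+* k),
    (∀ τ' : M' →+* k, τ'.comp (algebraMap M M') ∈ A → SplitAt M τ') →
  ∀ ε : ℝ, 0 < ε → ∃ E : M', ∀ τ ∈ A ∪ B,
    (τ ∈ B ∧ ∀ τ' : M' →+* k, τ'.comp (algebraMap M M') = τ → ‖τ' E - ((p : k) ^ n)⁻¹‖ ≤ ε) ∨
    ∃ τ' : M' →+* k, τ'.comp (algebraMap M M') = τ ∧ ‖τ' E - 1‖ ≤ ε ∧
      ∀ g : M' ≃ₐ[M] M', g ≠ 1 → ‖τ' (g E)‖ ≤ ε

/-- **L_TOR** (the torsion in case (B)). Let `T₂` be a set of embeddings of `M'` in `k`, stable under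
`τ' ↦ τ' ∘ δ₁` and `τ' ↦ τ' ∘ g` for `g ∈ Gal(M'/M)`, and `B₂ ⊆ T₂` a finite subset, stable in the same
way, such that for every `τ : Ω → k` with `τ|_{M'} ∈ B₂` the condition `NoTor P δ₁ τ` holds. There are
`q' ≥ 1` prime to `p` and `Q ∈ ℤ[X]` with reduction `1 + P C'` modulo `p` such that: for every `ε`,
`0 < ε < 1`, there is `N₁` such that for all `x ∈ Mˣ`, `y ∈ M'ˣ` such that `z = x y^p` satisfies
`SigSmall L T₂ N₁`, the element `y₂ = Q(δ₁)(Q(δ₁) y)` satisfies `‖τ'(g(y₂)/y₂)^(q') - 1‖ ≤ ε` for all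
`g ∈ Gal(M'/M)` and all `τ' ∈ B₂`.

PROOF. Let `q', b` be given by `L_EXP` for `M'`, `T₂`, `q = q' p^b`. For each `τ' ∈ B₂` choose an
extension `τ` to `Ω` and let `(s, r, i)` be given by `NoTor`; let `Q₀ = ∏ (X^r - i)^b` over these
finitely many `τ'`; modulo `p` it is coprime to `P`, so there is `B ∈ ℤ[X]` such that `Q = B Q₀` has
reduction `1 + P C'` (no `τ'`: `Q = 1`). Write `Q(δ₁) z` for `act δ₁ Q z`. Let `N₁` be so large that
`p^(-N₁) ≤ ε^(p^(b+1))`.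
(1) For every `z'` in the subgroup generated by the `δ₁^j(g z)`: `‖τ' z'‖ = 1` and
`‖L(τ' z')‖ ≤ p^(-N₁)` for all `τ' ∈ T₂`, because `T₂` is stable, and by `L_EXP` and `L_ISO`,
`‖τ'(z')^q - 1‖ = ‖L(τ'(z')^q)‖ = ‖q L(τ' z')‖ ≤ p^(-N₁)` for all `τ' ∈ T₂`.
(2) Let `z₁ = Q(δ₁) z = x₁ y₁^p`, `x₁ = Q(δ) x ∈ Mˣ`, `y₁ = Q(δ₁) y`. For `τ' ∈ B₂` with `τ`, `(s, r, i)`:
`Q = Q₁ (X^r - i)^b`; apply `L_ROU` in `F = Ω` to `Z_j =` the image of `(act δ₁ ((X^r - i)^j Q₁) z)^(q')`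
(`Z_{j+1} = s(Z_j)/Z_j^i`) and `ε^p`: `‖τ(Z_0^(p^b) - 1)‖ ≤ p^(-N₁) ≤ (ε^p)^(p^b)`, so
`‖τ'(z₁)^(q') - 1‖ ≤ ε^p`. The same for `g z₁ = Q(δ₁)(g z)`, `g ∈ G`.
(3) For `g ∈ G` let `Y = g(y₁)/y₁`; `Y^p = g(z₁)/z₁` as `g x₁ = x₁`. For `Y'` in the subgroup generated
by the `δ₁^j Y`, `Y'^p` is in the subgroup generated by the `δ₁^j g(z₁)`, `δ₁^j z₁`, so by (2), as `B₂` is
stable, `‖(τ'(Y')^(q'))^p - 1‖ ≤ ε^p` for all `τ' ∈ B₂`. With `τ`, `(s, r, i)` as before let `v ∈ Ω` be the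
image of `Y'^(q')`; `v^p - 1 = ∏ (v - ξ)` over the `ξ` with `ξ^p = 1`, so there is `ξ` with
`‖τ(v - ξ)‖ ≤ ε`. Then `s(v)` is the image of `(δ₁^r Y')^(q')` and `‖τ(s(v) - ξ^i)‖ = ‖τ(s(v - ξ))‖ ≤ ε`,
`‖τ(v^i - ξ^i)‖ ≤ ε`, so `‖τ(s(v)/v^i - 1)‖ ≤ ε`: the element `Y'' = δ₁^r(Y')/Y'^i` satisfies
`‖τ'(Y'')^(q') - 1‖ ≤ ε`. Apply this to `Y' = act δ₁ (Q₁ (X^r - i)^(b-1)) Y`: `Y'' = Q(δ₁) Y =
g(y₂)/y₂`. -/
def L_TOR : Prop :=
  ∀ (p : ℕ) [Fact p.Prime] (k : Type) [NormedField k] [NormedAlgebra ℚ_[p] k]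
    [IsUltrametricDist k], Nonempty (AlgebraicClosure ℚ →+* k) →
  ∀ (L : IwasawaLog p k) (K M M' Ω : Type) [Field K] [Field M] [NumberField M]
    [Field M'] [NumberField M'] [Algebra K M] [Algebra M M'] [Algebra K M'] [IsScalarTower K M M']
    [Field Ω] [Algebra M' Ω] [IsAlgClosure M' Ω]
    (m n : ℕ) (δ : M ≃ₐ[K] M) (δ₁ : M' ≃ₐ[K] M') (P : (ZMod p)[X]), Irreducible P →
    LData p m n δ δ₁ →
  ∀ T₂ B₂ : Set (M' →+* k), B₂ ⊆ T₂ →
    (∀ τ' ∈ T₂, τ'.comp (δ₁ : M' →+* M') ∈ T₂) → (∀ τ' ∈ B₂, τ'.comp (δ₁ : M' →+* M') ∈ B₂) →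
    (∀ g : M' ≃ₐ[M] M', (∀ τ' ∈ T₂, τ'.comp (g : M' →+* M') ∈ T₂) ∧
      ∀ τ' ∈ B₂, τ'.comp (g : M' →+* M') ∈ B₂) →
    (∀ τ : Ω →+* k, τ.comp (algebraMap M' Ω) ∈ B₂ → NoTor P δ₁ τ) →
  ∃ (q' : ℕ) (Q : ℤ[X]) (C' : (ZMod p)[X]), 0 < q' ∧ q'.Coprime p ∧
    Q.map (Int.castRingHom (ZMod p)) = 1 + P * C' ∧
    ∀ ε : ℝ, 0 < ε → ε < 1 → ∃ N₁ : ℕ, ∀ (x : Mˣ) (y : M'ˣ), SigSmall L T₂ N₁ (up x * y ^ p) →
      ∀ y₂ : M'ˣ, y₂ = act δ₁ Q (act δ₁ Q y) → ∀ g : M' ≃ₐ[M] M', ∀ τ' ∈ B₂,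
        ‖τ' (g (y₂ : M') / y₂) ^ q' - 1‖ ≤ ε

/-- **L_LSD** (descent of the logarithmic condition). Let every `σ ∈ T` be of type (A): all the
extensions `τ'` of `σ` to `M'` satisfy `SplitAt M τ'`, or of type (B): all the extensions `τ` to `Ω`
satisfy `NoTor P δ₁ τ`. If `x ∈ Mˣ`, `P(δ) x` is a `p`-th power in `Mˣ`, and the image of `x` in `M'ˣ`
satisfies `LocSig` for the embeddings of `M'` above `T`, then `x` satisfies `LocSig` for the embeddings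
of `M` above `T`.

PROOF (from `L_TOR`, `L_WGT`, `L_POL`). Let `T₁ = above T`, `T₂ = above T₁`. Both are finite; `T₁` is
stable under `δ`, `T₂` under `δ₁` and `G = Gal(M'/M)`, and these operations do not change the
restriction `σ` to `K`. Let `A` be the set of the `τ ∈ T₁` with `τ|_K` of type (A), `B` the set of the
`τ ∈ T₁` with `τ|_K` of type (B); `T₁ = A ∪ B`. Let `B₂` be the set of the `τ' ∈ T₂` with `τ'|_K` of type
(B), that is `τ'|_M ∈ B`; it is stable under `δ₁` and `G`. Let `q'`, `Q`, `C'` be given by `L_TOR`.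

Fix `N`, let `ε = p^(-N-n-1)`, `N₁` given by `L_TOR`, `N₂ = max(N₁, N)`. Choose `y ∈ M'ˣ` such that
`z = x y^p` satisfies `SigSmall L T₂ N₂`, put `x₂ = Q(δ)(Q(δ) x)`, `y₂ = Q(δ₁)(Q(δ₁) y)`,
`z₂ = Q(δ₁)(Q(δ₁) z) = x₂ y₂^p` (`act_map`); `z₂` satisfies `SigSmall L T₂ N` too (`T₂` is stable under
`δ₁`), and so does `g z₂`. So `‖τ'(g y₂)‖^p = ‖τ'(g x₂)‖^(-1) = ‖τ'(x₂)‖^(-1) = ‖τ'(y₂)‖^p`.
Let `E` be given by `L_WGT` with `ε p^(-n)`, and `c = ∑_{g ∈ G} g(E y₂^(q'))`, an element of `M`. Let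
`τ ∈ T₁`. Case (b) of `L_WGT`: for any `τ'` above `τ` also `τ' ∘ g` is above `τ`, so
`τ(c) = ∑_g τ'(g E) τ'(g y₂)^(q') = τ'(y₂)^(q') ∑_g (p^(-n) + e_g)(1 + f_g)`, `‖e_g‖ ≤ ε p^(-n)`,
`‖f_g‖ ≤ ε`, so `τ(c) = τ'(y₂)^(q') (1 + f)` with `‖f‖ ≤ p^n ε ≤ p^(-N-1)` (`G` has `p^n` elements). Case
(a), with the `τ'` of `L_WGT`: `τ(c) = τ'(y₂)^(q') (1 + f)`, `‖f‖ ≤ ε`. If `T₁` is empty there is nothing
to prove; otherwise `c ≠ 0`, and `τ(x₂^(q') c^p) = τ'(z₂)^(q') (1 + f)^p` has norm 1 and logarithm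
`q' L(τ' z₂) + p L(1 + f)` of norm `≤ p^(-N)` (`‖L(1 + f)‖ ≤ p^(-N-1)`: the terms of the series are
`≤ ‖f‖^(j+1) (j+1) ≤ ‖f‖`).
Let `n₁, n₂` be with `n₁ q' = 1 + p n₂`. Then `(x₂^(q') c^p)^(n₁) = x₂ (x₂^(n₂) c^(n₁))^p` satisfies
`SigSmall L T₁ N`. By `L_POL` (twice), `x₂ = x y₃^p` with `y₃ ∈ Mˣ`. As `N` was arbitrary, `x` satisfies
`LocSig L T₁`. -/
def L_LSD : Prop :=
  ∀ (p : ℕ) [Fact p.Prime] (k : Type) [NormedField k] [NormedAlgebra ℚ_[p] k]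
    [IsUltrametricDist k], Nonempty (AlgebraicClosure ℚ →+* k) →
  ∀ (L : IwasawaLog p k) (K M M' Ω : Type) [Field K] [Field M] [NumberField M]
    [Field M'] [NumberField M'] [Algebra K M] [Algebra M M'] [Algebra K M'] [IsScalarTower K M M']
    [Field Ω] [Algebra M' Ω] [IsAlgClosure M' Ω] [Algebra K Ω] [IsScalarTower K M' Ω]
    (m n : ℕ) (δ : M ≃ₐ[K] M) (δ₁ : M' ≃ₐ[K] M') (P : (ZMod p)[X]), Irreducible P →
    LData p m n δ δ₁ →
  ∀ T : Set (K →+* k),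
    (∀ σ ∈ T, (∀ τ' : M' →+* k, τ'.comp (algebraMap K M') = σ → SplitAt M τ') ∨
      ∀ τ : Ω →+* k, τ.comp (algebraMap K Ω) = σ → NoTor P δ₁ τ) →
  ∀ x : Mˣ, Pw p (pol P δ x) →
    LocSig L (above (above T : Set (M →+* k)) : Set (M' →+* k)) (up x) →
    LocSig L (above T : Set (M →+* k)) x

/-- **L_SUB.** The Selmer group `SelD` over `M'` is a subgroup of `M'ˣ` which contains the `p`-th powers
and is stable under `Gal(M'/M)`.

PROOF. *pol*: `pol P δ₁` is a homomorphism which commutes with `g ∈ Gal(M'/M)` (`comm`). *dvd*: `ordv`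
is additive on units; `ord_W(g x) = ord_{W'}(x)` where `W'` is the prime with
`W'.valuation y = W.valuation (g y)`; `W` and `W'` are above the same prime `v` of `M` and so
`W ∈ R' ↔ W' ∈ R'` (`iff`; every `W` is above some `v`). *tame*: if `x al^j y^p` and `x' al^j' y'^p` are
`≡ 1 mod W` then so is their product, and the inverse of the first: `x⁻¹ al^((p-1) j) (al^(-j) y^(-1))^p`
(`al ≠ 0`); `x^p` is fine with `j = 0`. Stability: `al'` is the image of `al v ∈ M` for both `W` and `W'`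
(`al_eq`), and `W.valuation (g(x) al^j (g y)^p - 1) = W'.valuation (x al^j y^p - 1)`. *sig*: as in
`RP.S_SUB`; `T₂ = above T₁` is stable under `τ' ↦ τ' ∘ g`. -/
def L_SUB : Prop :=
  ∀ (p : ℕ) [Fact p.Prime] (k : Type) [NormedField k] [IsUltrametricDist k]
    (L : IwasawaLog p k) (K M M' : Type) [Field K] [Field M] [NumberField M]
    [Field M'] [NumberField M'] [Algebra K M] [Algebra M M'] [Algebra K M'] [IsScalarTower K M M']
    (m n : ℕ) (δ : M ≃ₐ[K] M) (δ₁ : M' ≃ₐ[K] M') (P : (ZMod p)[X]), LData p m n δ δ₁ →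
  ∀ (T₁ : Set (M →+* k)) (R : Set (HeightOneSpectrum (𝓞 M))) (al : HeightOneSpectrum (𝓞 M) → M)
    (R' : Set (HeightOneSpectrum (𝓞 M'))) (al' : HeightOneSpectrum (𝓞 M') → M'),
    LPrimes K T₁ R al R' al' →
  ∃ V : Subgroup M'ˣ, (∀ x, x ∈ V ↔ SelD L (above T₁ : Set (M' →+* k)) P δ₁ R' al' x) ∧
    (∀ x, Pw p x → x ∈ V) ∧
    ∀ (g : M' ≃ₐ[M] M'), ∀ x ∈ V, Units.map ((g : M' →+* M') : M' →* M') x ∈ V

/-- **L_LIFT** (the lifting theorem). If the Selmer group of the datum `(R, al)` over `M` consists of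
`p`-th powers, so does the Selmer group of the datum `(R', al')` over `M'`.

PROOF (from `L_SUB`, `L_FIX`, `L_DES`, `L_LSD` and `RP.S_NSP`). Suppose not. `L_SUB` and `L_FIX` give
`x ∈ M'ˣ` satisfying `SelD`, not a `p`-th power, with `g(x)/x` a `p`-th power for all `g`. `L_DES` gives
`x₀ ∈ Mˣ` with `P(δ) x₀` a `p`-th power and `x/x₀` a `p`-th power in `M'ˣ`; so the image of `x₀`
satisfies `SelD` over `M'` (`L_SUB`) and `x₀` is not a `p`-th power in `Mˣ`. We show that `x₀` satisfies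
`SelD` over `M`, a contradiction. *pol* is clear, *sig* is `L_LSD`. *tame*: let `v ∈ R`, `W` given by
`split`; there are `j` and `y ∈ M'` with `z y^p ≡ 1 mod W`, `z = x₀ (al v)^j ∈ Mˣ`. Then
`ord_v(z) = ord_W(z) = -p ord_W(y)`; choose `c ∈ M` with `ord_v(c) = ord_W(y)` and `d ∈ 𝓞_M` congruent to
the `W`-unit `y/c` modulo `W` (`y/c = a/b` with `a, b ∈ 𝓞_{M'}`, `b ∉ W`; by `split` both are congruent
to elements of `𝓞_M`, and `𝓞_M/v` is a field); `z (c d)^p ≡ 1 mod v`. *dvd*: let `v ∉ R`. If `v` has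
nontrivial decomposition group use `RP.S_NSP`. If `AtT T₁ v` with `τ`: `LocSig` with `N = 0` gives
`y ∈ Mˣ` with `‖τ(x₀ y^p)‖ = 1`, and then `ord_v(x₀ y^p) = 0`: if `w ∈ Mˣ` has `ord_v(w) ≥ 1` then
`w = a/b` with `a, b ∈ 𝓞_M`, `a ∈ v`, `b ∉ v`, so `‖τ w‖ < 1`; similarly for `w⁻¹`. Otherwise let `W` be
given by `unr`: `W ∉ R'`, and `ord_v(x₀) = ord_W(x₀)` is divisible by `p`. -/
def L_LIFT : Prop :=
  ∀ (p : ℕ) [Fact p.Prime] (k : Type) [NormedField k] [NormedAlgebra ℚ_[p] k]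
    [IsUltrametricDist k], Nonempty (AlgebraicClosure ℚ →+* k) →
  ∀ (L : IwasawaLog p k) (K M M' Ω : Type) [Field K] [Field M] [NumberField M]
    [Field M'] [NumberField M'] [Algebra K M] [IsGalois K M] [Algebra M M'] [Algebra K M']
    [IsScalarTower K M M'] [Field Ω] [Algebra M' Ω] [IsAlgClosure M' Ω] [Algebra K Ω]
    [IsScalarTower K M' Ω] (m n : ℕ) (δ : M ≃ₐ[K] M) (δ₁ : M' ≃ₐ[K] M') (ζ : k) (Φ : ℤ_[p][X])
    (P : (ZMod p)[X]), PhiData p m ζ Φ P → orderOf δ = m → finrank K M = m →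
    LData p m n δ δ₁ → TorOK P δ₁ →
  ∀ T : Set (K →+* k),
    (∀ σ ∈ T, (∀ τ' : M' →+* k, τ'.comp (algebraMap K M') = σ → SplitAt M τ') ∨
      ∀ τ : Ω →+* k, τ.comp (algebraMap K Ω) = σ → NoTor P δ₁ τ) →
  ∀ (R : Set (HeightOneSpectrum (𝓞 M))) (al : HeightOneSpectrum (𝓞 M) → M)
    (R' : Set (HeightOneSpectrum (𝓞 M'))) (al' : HeightOneSpectrum (𝓞 M') → M'),
    LPrimes K (above T : Set (M →+* k)) R al R' al' →
    (∀ x : Mˣ, SelD L (above T) P δ R al x → Pw p x) →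
  ∀ x : M'ˣ, SelD L (above (above T : Set (M →+* k))) P δ₁ R' al' x → Pw p x

end Pool.Agent.Helper77.RL
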