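import Pool.Agent.Helper77.RL.Goals2

/-!
# Project RL (MP_fc6b1e_nt), part III: cyclic extensions of degree `p^n`

For every finite set `R` of primes of `K` and every `n` there is a cyclic extension `L/K` of degree `p^n`
which is admissible for `R` (and all `Σ`, `χ₀`); so the theorem `L_RSQ` gives infinitely many characters
`φ` of order `p^n` for which the `Σ`-Leopoldt statement holds for `χ₀ φ`. `E = K(ξ)` with a primitive
`p^n`-th root of unity `ξ`; `L` is cut out by the transfer of the Kummer character of an element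
`b ∈ E`.
-/

namespace Pool.Agent.Helper77.RL

open NumberField Polynomial Module IsDedekindDomain TensorProduct Pool.Agent.Helper51.SigLeo
open Pool.Agent.Helper51.RP
open Pool.Agent.Helper42.RD (IsDat LocD Match TSet)

/-- **X_INE** (trivial inertia means unramified). Let `X/Y` be a Galois extension of number fields, `W` a
prime of `X` above the prime `w` of `Y` whose inertia group is trivial. Then `W` is unramified over `w`.

PROOF. The decomposition group `D` of `W` has `e f` elements (the orbit of `W` is the set of the primes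
above `w`, `Ideal.ncard_primesOver_mul_ramificationIdxIn_mul_inertiaDegIn`). The kernel of the action of
`D` on `𝓞_X/W` is the inertia group (an automorphism `g` with `g x - x ∈ W` for all `x ∈ 𝓞_X` preserves
`W`), so it is trivial and `D` embeds in the group of the automorphisms of the finite field `𝓞_X/W` over
`𝓞_Y/w`, which has `f` elements. So `e f ≤ f`, `e = 1`. -/
def X_INE : Prop :=
  ∀ (Y X : Type) [Field Y] [NumberField Y] [Field X] [NumberField X] [Algebra Y X] [IsGalois Y X]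
    (W : HeightOneSpectrum (𝓞 X)) (w : HeightOneSpectrum (𝓞 Y)), Above W w →
    (∀ g : X ≃ₐ[Y] X, (∀ x : 𝓞 X, W.valuation X (g (x : X) - x) < 1) → g = 1) →
    ∀ x : Y, ordv W (algebraMap Y X x) = ordv w x

/-- The Kummer data: `E/K` and `F/K` are Galois, `ξ ∈ E` is a primitive `p^n`-th root of unity which
generates `E`, `b ∈ E`, `b ≠ 0`, and `F` is generated over `E` by `p^n`-th roots of the conjugates of
`b`. -/
structure Kum (p n : ℕ) (K E F : Type) [Field K] [Field E] [Field F] [Algebra K E] [Algebra E F]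
    [Algebra K F] (ξ b : E) : Prop where
  galE : IsGalois K E
  galF : IsGalois K F
  prim : IsPrimitiveRoot ξ (p ^ n)
  genE : ∀ σ : E ≃ₐ[K] E, σ ξ = ξ → σ = 1
  ne : b ≠ 0
  root : ∀ σ : E ≃ₐ[K] E, ∃ β : F, β ^ p ^ n = algebraMap E F (σ b)
  gen : ∀ h : F ≃ₐ[K] F, (∀ x : E, h (algebraMap E F x) = algebraMap E F x) →
    (∀ (σ : E ≃ₐ[K] E) (β : F), β ^ p ^ n = algebraMap E F (σ b) → h β = β) → h = 1

/-- **X_EXF** (existence of the Kummer data). Let `E = K(ξ)` in the algebraic closure, `b ∈ E`, `b ≠ 0`.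
There is a finite extension `F ⊇ E` in the algebraic closure with `Kum`.

PROOF. `F` is the field generated over `E` by the (finitely many) elements `β` of the algebraic closure
with `β^(p^n) = σ b` for some `σ ∈ Gal(E/K)`. It is finite over `K`; it is Galois over `K`, because an
automorphism `τ` of the algebraic closure over `K` maps `E` to `E` and such a `β` to an element with
`τ(β)^(p^n) = τ(σ b)`, which is again one of them. -/
def X_EXF : Prop :=
  ∀ (p : ℕ) [Fact p.Prime] (n : ℕ) (K : Type) [Field K] [NumberField K]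
    (E : IntermediateField K (AlgebraicClosure K)) [NumberField E] [IsGalois K E] (ξ b : E),
    IsPrimitiveRoot ξ (p ^ n) → (∀ σ : E ≃ₐ[K] E, σ ξ = ξ → σ = 1) → b ≠ 0 →
  ∃ (F : IntermediateField K (AlgebraicClosure K)) (h : E ≤ F), NumberField F ∧
    (letI := (IntermediateField.inclusion h).toRingHom.toAlgebra; Kum p n K E F ξ b)

/-- **X_PSI** (the transfer of the Kummer character). Let `Kum` hold, let `Q₀` be a prime of `E` with
trivial decomposition group over `K`, `ord_{Q₀}(b) = 1` and `ord_{Q'}(b) = 0` at the other conjugates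
`Q'` of `Q₀`. There is a cyclic extension `L/K` of degree `p^n` in `F` such that every `g ∈ Gal(F/K)`
such that the powers of `g` which are trivial on `E` are `1`, is trivial on `L`.

PROOF. Let `G = Gal(F/K)`, `A ⊆ G` the normal subgroup of the elements which are trivial on `E`,
`β ∈ F` with `β^(p^n) = b`. For `h ∈ A`, `κ(h) = h(β)/β` is a `p^n`-th root of unity, so a power of `ξ`;
`κ : A → μ` is a homomorphism to the group `μ` of the `p^n`-th roots of unity (cyclic of order `p^n`).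
Let `ψ : G → μ` be the transfer of `κ` (Mathlib: `MonoidHom.transfer`). By
`MonoidHom.transfer_eq_prod_quotient_orbitRel_zpowers_quot` `ψ(g)` is a product of factors
`κ(t⁻¹ g^f t)` with `t⁻¹ g^f t ∈ A`, hence `g^f ∈ A`; so if all the powers of `g` in `A` are `1` then
`ψ(g) = 1`.
CLAIM: `ψ` is surjective. For `σ ∈ Gal(E/K)` let `n(σ) ∈ ℕ` with `σ ξ = ξ^(n(σ))`, `n(1) = 1`; let
`β_σ ∈ F` with `β_σ^(p^n) = σ(b)`, and `a = ∏_σ σ(b)^(n(σ⁻¹)) ∈ E`, `α = ∏_σ β_σ^(n(σ⁻¹))`, so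
`α^(p^n) = a`. For `h ∈ A`, `ψ(h) = ∏_t κ(t⁻¹ h t)` over representatives `t` of `G/A = Gal(E/K)`. If `t`
has restriction `σ` to `E`, `κ(t⁻¹ h t) = t⁻¹(h(t β)/(t β))`, and `t β` is `β_σ` times a root of unity in
`E`, so `h(t β)/(t β) = h(β_σ)/β_σ`, a power of `ξ` on which `t⁻¹` acts as the `n(σ⁻¹)`-th power. So
`ψ(h) = h(α)/α`. If `ψ` is not surjective then `ψ(h)^(p^(n-1)) = 1` for all `h ∈ A` (if `n ≥ 1`; the case
`n = 0` is trivial), so `α^(p^(n-1))` is fixed by `A` and it is the image of some `c ∈ E`, `c^p = a`. But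
`ord_{Q₀}(a) = ∑_σ n(σ⁻¹) ord_{Q₀}(σ b) = 1`: `ord_{Q₀}(σ b) = ord_{Q'}(b)` for the conjugate `Q'` of `Q₀` with
`Q'.valuation y = Q₀.valuation (σ y)`, which is different from `Q₀` for `σ ≠ 1`. A contradiction.
Let `L` be the fixed field of the kernel of `ψ`, a normal subgroup: `Gal(L/K) = G/ker ψ = μ`, cyclic of
order `p^n`. -/
def X_PSI : Prop :=
  ∀ (p : ℕ) [Fact p.Prime] (n : ℕ) (K E F : Type) [Field K] [NumberField K] [Field E]
    [NumberField E] [Field F] [NumberField F] [Algebra K E] [Algebra E F] [Algebra K F]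
    [IsScalarTower K E F] (ξ b : E), Kum p n K E F ξ b →
  ∀ Q₀ : HeightOneSpectrum (𝓞 E), FreeP K Q₀ → ordv Q₀ b = 1 →
    (∀ Q' : HeightOneSpectrum (𝓞 E), ConjP K Q' Q₀ → Q' ≠ Q₀ → ordv Q' b = 0) →
  ∃ L : IntermediateField K F, IsGalois K L ∧ IsCyclic (L ≃ₐ[K] L) ∧ finrank K L = p ^ n ∧
    ∀ g : F ≃ₐ[K] F, (∀ i : ℕ, (∀ x : E, (g ^ i) (algebraMap E F x) = algebraMap E F x) →
      g ^ i = 1) → ∀ x : L, g (x : F) = x

/-- **X_SPL** (decomposition groups). Let `Kum` hold and let `𝔓` be a prime of `F` with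
`|σ(b) - 1| < |p|^(p^n)` for all `σ` (absolute value of `𝔓`). If `g ∈ Gal(F/K)` preserves the valuation of
`𝔓`, then the powers of `g` which are trivial on `E` are `1`.

PROOF. Let `h = g^i` be trivial on `E`; it preserves the valuation of `𝔓`. Let `β^(p^n) = σ(b)`. As
`∏_{j<p^n} (β - ξ^j) = σ(b) - 1`, there is `j` with `|β - ξ^j| < |p|`. `h(β) = ξ^l β` for some `l`, and
`|ξ^l β - ξ^j| = |h(β - ξ^j)| < |p|`, `|ξ^l β - ξ^(l+j)| < |p|`, so `|ξ^l - 1| < |p|`. If `ξ^l ≠ 1`, then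
`ξ^l` is a root of unity of order `p^k`, `k ≥ 1`, and `p = ∏_u (1 - ξ^(l u))` over the `u < p^k` prime to
`p` (the value at `1` of the cyclotomic polynomial), so `|ξ^l - 1| ≥ |p|`: a contradiction. So `h` fixes
all these `β`, and `h = 1` by `gen`. -/
def X_SPL : Prop :=
  ∀ (p : ℕ) [Fact p.Prime] (n : ℕ) (K E F : Type) [Field K] [NumberField K] [Field E]
    [NumberField E] [Field F] [NumberField F] [Algebra K E] [Algebra E F] [Algebra K F]
    [IsScalarTower K E F] (ξ b : E), Kum p n K E F ξ b →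
  ∀ 𝔓 : HeightOneSpectrum (𝓞 F),
    (∀ σ : E ≃ₐ[K] E, 𝔓.valuation F (algebraMap E F (σ b) - 1) < 𝔓.valuation F (p : F) ^ p ^ n) →
  ∀ g : F ≃ₐ[K] F, (∀ x, 𝔓.valuation F (g x) = 𝔓.valuation F x) →
    ∀ i : ℕ, (∀ x : E, (g ^ i) (algebraMap E F x) = algebraMap E F x) → g ^ i = 1

/-- **X_UNR** (inertia groups). Let `Kum` hold and let `𝔓` be a prime of `F`, not above `p`, such that
for all `σ` the absolute value of `σ(b)` is the `p^n`-th power of that of an element of `E`. Then the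
inertia group of `𝔓` in `Gal(F/K)` is trivial.

PROOF. Let `g` satisfy `|g x - x| < 1` for all `x ∈ 𝓞_F`; then this holds for all `x ∈ F` with `|x| ≤ 1`
(`x = y/z` with `y, z ∈ 𝓞_F`, `|z| = 1`). In particular `g` preserves the valuation. For a power
`ξ^l ≠ 1` of `ξ`, `|ξ^l - 1| = 1` because `ξ^l - 1` divides `p` (see `X_SPL`). `g(ξ) = ξ^u`, `|ξ^u - ξ| < 1`,
so `ξ^u = ξ`, and `g` is trivial on `E` by `genE` (the restriction of `g` to `E`, normal over `K`). Let
`β^(p^n) = σ(b)`, `|σ(b)| = |c|^(p^n)`, so `y = β/c` has `|y| = 1`. `g(y) = ξ^l y` for some `l`, so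
`|ξ^l - 1| = |g(y) - y| < 1` and `ξ^l = 1`, `g(β) = β`. By `gen` `g = 1`. -/
def X_UNR : Prop :=
  ∀ (p : ℕ) [Fact p.Prime] (n : ℕ) (K E F : Type) [Field K] [NumberField K] [Field E]
    [NumberField E] [Field F] [NumberField F] [Algebra K E] [Algebra E F] [Algebra K F]
    [IsScalarTower K E F] (ξ b : E), Kum p n K E F ξ b →
  ∀ 𝔓 : HeightOneSpectrum (𝓞 F), 𝔓.valuation F (p : F) = 1 →
    (∀ σ : E ≃ₐ[K] E, ∃ c : E, 𝔓.valuation F (algebraMap E F (σ b)) =
      𝔓.valuation F (algebraMap E F c) ^ p ^ n) →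
  ∀ g : F ≃ₐ[K] F, (∀ x : 𝓞 F, 𝔓.valuation F (g (x : F) - x) < 1) → g = 1

/-- **X_BEJ** (`E_BEX` for divisors). Let `K₁` be totally complex, `M₁/K₁` Galois of degree `m₁ > 1` (`≥ 3`
if `p = 2`), `𝔫` a nonzero ideal of `𝓞_{K₁}`, `D` a divisor. There is `b ∈ 𝓞_{K₁}`, `b ≠ 0`,
`b ≡ 1 mod 𝔫`, such that `p ∣ D(Q) + ord_Q(b)` for all primes `Q` of `K₁`, prime to `𝔫`, above which there is
a prime of `M₁` with trivial decomposition group in `Gal(M₁/K₁)`.

PROOF. The proof of `Helper42.RD.E_BEX` (file `Pool/Agent/Helper60/RD/BEX.lean`), which shows that the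
space `V` is spanned by the `e_Q`, `Q` harmless, and the `div(b)`, `b ≡ 1 mod 𝔫`, applies to any divisor
in place of `div(β)`. -/
def X_BEJ : Prop :=
  ∀ (p : ℕ) [Fact p.Prime] (K₁ M₁ : Type) [Field K₁] [NumberField K₁] [IsTotallyComplex K₁]
    [Field M₁] [NumberField M₁] [Algebra K₁ M₁] [IsGalois K₁ M₁], 1 < finrank K₁ M₁ →
    (p = 2 → 3 ≤ finrank K₁ M₁) →
  ∀ 𝔫 : Ideal (𝓞 K₁), 𝔫 ≠ ⊥ → ∀ D : HeightOneSpectrum (𝓞 K₁) →₀ ℤ,
  ∃ b : 𝓞 K₁, b ≠ 0 ∧ b - 1 ∈ 𝔫 ∧
    ∀ (W : HeightOneSpectrum (𝓞 M₁)) (Q : HeightOneSpectrum (𝓞 K₁)), Above W Q → FreeP K₁ W →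
      Q.asIdeal ⊔ 𝔫 = ⊤ → (p : ℤ) ∣ D Q + ordv Q (b : K₁)

/-- **X_BEN** (the same modulo `p^n`).

PROOF (from `X_BEJ`). Induction on `n`; `n = 0`: `b = 1`. Let `b` be as stated for `n`. Let
`D'(Q) = (D(Q) + ord_Q(b))/p^n` for the primes `Q` as in the statement and `D'(Q) = 0` for the others, a
divisor with finite support; `X_BEJ` gives `c`, `c ≡ 1 mod 𝔫`, `p ∣ D'(Q) + ord_Q(c)`. Then `b c^(p^n)` is as
required: `D(Q) + ord_Q(b c^(p^n)) = p^n (D'(Q) + ord_Q(c))`. -/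
def X_BEN : Prop :=
  ∀ (p : ℕ) [Fact p.Prime] (K₁ M₁ : Type) [Field K₁] [NumberField K₁] [IsTotallyComplex K₁]
    [Field M₁] [NumberField M₁] [Algebra K₁ M₁] [IsGalois K₁ M₁], 1 < finrank K₁ M₁ →
    (p = 2 → 3 ≤ finrank K₁ M₁) →
  ∀ 𝔫 : Ideal (𝓞 K₁), 𝔫 ≠ ⊥ → ∀ (n : ℕ) (D : HeightOneSpectrum (𝓞 K₁) →₀ ℤ),
  ∃ b : 𝓞 K₁, b ≠ 0 ∧ b - 1 ∈ 𝔫 ∧
    ∀ (W : HeightOneSpectrum (𝓞 M₁)) (Q : HeightOneSpectrum (𝓞 K₁)), Above W Q → FreeP K₁ W →
      Q.asIdeal ⊔ 𝔫 = ⊤ → (p : ℤ) ^ n ∣ D Q + ordv Q (b : K₁)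

/-- The fields `K ⊆ M, E ⊆ M₁`: `E = K(ξ)` with a primitive `p^n`-th root of unity `ξ`, `M₁ = M E`,
`[M : K]` is prime to `p`, `M` is not contained in `E`. -/
structure TowerN (p n : ℕ) (K M E M₁ : Type) [Field K] [Field M] [Field E] [Field M₁]
    [Algebra K M] [Algebra K E] [Algebra K M₁] [Algebra M M₁] [Algebra E M₁] (ξ : E) :
    Prop where
  prim : IsPrimitiveRoot ξ (p ^ n)
  gen : ∀ σ : E ≃ₐ[K] E, σ ξ = ξ → σ = 1
  cop : (finrank K M).Coprime p
  lin : ∀ g : M₁ ≃ₐ[K] M₁, (∀ x : M, g (algebraMap M M₁ x) = algebraMap M M₁ x) →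
    (∀ x : E, g (algebraMap E M₁ x) = algebraMap E M₁ x) → g = 1
  nt : 1 < finrank E M₁

/-- **X_TWN** (compare `Helper42.RD.E_TOW`).

PROOF. `M₁/E` is Galois (`IsGalois.tower_top_of_isScalarTower`). Restriction to `M` is an injective
homomorphism `Gal(M₁/E) → Gal(M/K)` by `lin`, so `[M₁ : E]` divides `[M : K]`, prime to `p`; if `p = 2` it is
odd and `> 1`. Last claim: as in `E_TOW`. -/
def X_TWN : Prop :=
  ∀ (p : ℕ) [Fact p.Prime] (n : ℕ) (K M E M₁ : Type) [Field K] [NumberField K] [Field M]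
    [NumberField M] [Field E] [NumberField E] [Field M₁] [NumberField M₁] [Algebra K M] [Algebra K E]
    [Algebra K M₁] [Algebra M M₁] [Algebra E M₁] [IsScalarTower K M M₁] [IsScalarTower K E M₁]
    [IsGalois K M] [IsGalois K E] [IsGalois K M₁] (ξ : E), TowerN p n K M E M₁ ξ →
  IsGalois E M₁ ∧ (p = 2 → 3 ≤ finrank E M₁) ∧
    ∀ (W : HeightOneSpectrum (𝓞 M₁)) (w : HeightOneSpectrum (𝓞 M)), Above W w → FreeP K w →
      FreeP E W

/-- **X_CHO** (choice of `b`). Let `R` be a finite set of primes of `K`. There are `b ∈ 𝓞_E`, `b ≠ 0`, and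
a prime `Q₀` of `E` such that: `|b - 1| < |p|^(p^n)` at all the primes of `E` above `p` or above a prime of
`R`; `Q₀` has trivial decomposition group over `K`, `ord_{Q₀}(b) = 1` and `ord_{Q'}(b) = 0` for the other
conjugates `Q'` of `Q₀`; if `v` is a prime of `K`, not in `R` and not above `p`, which splits completely in
`M`, then `p^n ∣ ord_Q(b)` for all `Q` above `v`.

PROOF (from `X_TWN`, `X_BEN` and `Helper42.RD.E_NFI`). By `E_NFI` (for `K ⊆ E ⊆ M₁`) there is a prime `Q₀` of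
`E`, not above `p` and not above a prime of `R`, `FreeP K Q₀`, and a prime `W₀` of `M₁` above `Q₀` with
`¬ FreeP E W₀`. By the Chinese remainder theorem there is `β ∈ 𝓞_E` with `β ≡ 1 mod p^(p^n+1)`,
`β ≡ 1 mod Q` for the primes `Q ∤ p` above `R`, `β ∈ Q₀`, `β ∉ Q₀²`, `β ≡ 1 mod Q'` for the conjugates
`Q' ≠ Q₀` of `Q₀`. Let `𝔫` be the product of `p^(p^n+1)`, of the primes `Q ∤ p` above `R` and of the squares
of the conjugates of `Q₀`; let `b₁` be given by `X_BEN` for `D = div(β)` and `b = β b₁`. As `b₁ ≡ 1 mod 𝔫`,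
`b` has the properties of `β`: `|b - 1| ≤ |p|^(p^n+1) < |p|^(p^n)` at the primes above `p`, and
`|b - 1| < 1 = |p|^(p^n)` at the `Q ∤ p` above `R`; `ord_{Q₀}(b) = 1`, `ord_{Q'}(b) = 0`. Let `v` be as in the
last claim, `w` a prime of `M` above `v` with `FreeP K w`, `Q` above `v`. There is a prime `W` of `M₁` above
`Q`; the prime `w'` of `M` below `W` is above `v`, so it is conjugate to `w`, `FreeP K w'`, and `FreeP E W`
by `X_TWN`. `Q` is prime to `𝔫`: it is not above `p` or `R`, and not conjugate to `Q₀`, since otherwise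
`v` would be below `W₀`, the prime `w₀` of `M` below `W₀` would be conjugate to `w`, `FreeP K w₀` and
`FreeP E W₀`, a contradiction. So `p^n ∣ ord_Q(β) + ord_Q(b₁) = ord_Q(b)`. -/
def X_CHO : Prop :=
  ∀ (p : ℕ) [Fact p.Prime] (n : ℕ) (K M E M₁ : Type) [Field K] [NumberField K] [IsTotallyComplex K]
    [Field M] [NumberField M] [Field E] [NumberField E] [Field M₁] [NumberField M₁] [Algebra K M]
    [Algebra K E] [Algebra K M₁] [Algebra M M₁] [Algebra E M₁] [IsScalarTower K M M₁]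
    [IsScalarTower K E M₁] [IsGalois K M] [IsGalois K E] [IsGalois K M₁] (ξ : E),
    TowerN p n K M E M₁ ξ →
  ∀ R : Set (HeightOneSpectrum (𝓞 K)), R.Finite →
  ∃ (b : 𝓞 E) (Q₀ : HeightOneSpectrum (𝓞 E)), b ≠ 0 ∧
    (∀ (Q : HeightOneSpectrum (𝓞 E)) (v : HeightOneSpectrum (𝓞 K)), Above Q v →
      (v ∈ R ∨ v.valuation K (p : K) < 1) →
      Q.valuation E ((b : E) - 1) < Q.valuation E (p : E) ^ p ^ n) ∧
    FreeP K Q₀ ∧ ordv Q₀ (b : E) = 1 ∧
    (∀ Q' : HeightOneSpectrum (𝓞 E), ConjP K Q' Q₀ → Q' ≠ Q₀ → ordv Q' (b : E) = 0) ∧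
    ∀ (Q : HeightOneSpectrum (𝓞 E)) (v : HeightOneSpectrum (𝓞 K)), Above Q v → v ∉ R →
      v.valuation K (p : K) = 1 → (∃ w : HeightOneSpectrum (𝓞 M), Above w v ∧ FreeP K w) →
      (p : ℤ) ^ n ∣ ordv Q (b : E)

/-- **X_LEX** (existence of `L`). Let `K` be totally complex, `M/K` Galois of degree prime to `p`, not
contained in `K(μ_p)`, `R` a finite set of primes of `K`, `n ∈ ℕ`. There is a cyclic extension `L/K` of
degree `p^n` in which the primes of `R` and those above `p` split completely, and the other primes which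
split completely in `M` are unramified.

PROOF (from `X_INE`, `X_EXF`, `X_PSI`, `X_SPL`, `X_UNR`, `X_CHO`). Let `Ω` be the algebraic closure, `ξ ∈ Ω` a
primitive `p^n`-th root of unity, `E = K(ξ)`, `M₁ = M ⊔ E`. `M` is not contained in `E` if `n ≥ 1`: with
`ξ' = ξ^(p^(n-1))`, a primitive `p`-th root of unity, `Gal(E/K(ξ'))` is a `p`-group (it embeds in the kernel
of `(ℤ/p^n)ˣ → (ℤ/p)ˣ`), so if `M ⊆ E` it acts trivially on `M` (`[M : K]` is prime to `p` and `M/K` is
Galois) and `M ⊆ K(ξ')`, contrary to the hypothesis; for `n = 0`, `E = K ≠ M` as well. So `TowerN` holds. Let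
`b, Q₀` be given by `X_CHO`, `F` by `X_EXF`, `L` by `X_PSI` (as a subfield of `Ω`: the image of the
intermediate field of `F/K` under the inclusion).
*Splitting.* Let `v` be a prime in `R` or above `p`, `V` a prime of `L` above `v`, and let `g ∈ Gal(L/K)`
preserve the valuation of `V`. Let `𝔓` be a prime of `F` above `V`. Extend `g` to `g₁ ∈ Gal(F/K)`; the
prime `g₁ 𝔓` is above `V`, so it is `h 𝔓` with `h ∈ Gal(F/L)`, and `g₂ = h⁻¹ g₁` preserves the valuation of
`𝔓` and extends `g`. For `σ ∈ Gal(E/K)` and the prime `Q` of `E` below `𝔓`, the conjugate `Q'` of `Q` with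
`Q'.valuation y = Q.valuation (σ y)` is above `v`, so `|σ(b) - 1|_Q = |b - 1|_{Q'} < |p|^(p^n)`, and the
same holds at `𝔓` (the valuation of `𝔓` on `E` is a positive power of that of `Q`). By `X_SPL` and
`X_PSI`, `g₂` is trivial on `L`: `g = 1`.
*Unramified.* Let `v` be another prime which splits completely in `M`, `V` above `v`, `𝔓` a prime of `F`
above `V`, `Q` the prime of `E` below. `p^n ∣ ord_Q(σ b)` for all `σ` (as before), so
`|σ(b)|_Q = |c|_Q^(p^n)` for a power `c` of a uniformizer. By `X_UNR` and `X_INE`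
`ord_𝔓(x) = ord_v(x)` for `x ∈ K`; as `ord_𝔓 = e(𝔓/V) ord_V` on `L` and `ord_V = e(V/v) ord_v` on `K`,
`e(V/v) = 1`. -/
def X_LEX : Prop :=
  ∀ (p : ℕ) [Fact p.Prime] (n : ℕ) (K : Type) [Field K] [NumberField K] [IsTotallyComplex K]
    (M : IntermediateField K (AlgebraicClosure K)) [NumberField M] [IsGalois K M],
    (finrank K M).Coprime p →
    (∀ ξ : AlgebraicClosure K, IsPrimitiveRoot ξ p → ¬ M ≤ IntermediateField.adjoin K {ξ}) →
  ∀ R : Set (HeightOneSpectrum (𝓞 K)), R.Finite →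
  ∃ (L : IntermediateField K (AlgebraicClosure K)) (_ : NumberField L), IsGalois K L ∧
    IsCyclic (L ≃ₐ[K] L) ∧ finrank K L = p ^ n ∧
    (∀ v : HeightOneSpectrum (𝓞 K), (v ∈ R ∨ v.valuation K (p : K) < 1) →
      ∀ V : HeightOneSpectrum (𝓞 L), Above V v → FreeP K V) ∧
    ∀ v : HeightOneSpectrum (𝓞 K), v ∉ R → v.valuation K (p : K) = 1 →
      (∃ w : HeightOneSpectrum (𝓞 M), Above w v ∧ FreeP K w) →
      ∀ V : HeightOneSpectrum (𝓞 L), Above V v → ∀ x : K, ordv V (algebraMap K L x) = ordv v x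

/-- **X_ADM** (the extension of `X_LEX` is admissible).

PROOF. *gal*, *deg*, *split*: clear. *unr*: a prime above `p` has trivial decomposition group in
`Gal(L/K)`, so it is unramified (`e f = 1`); the others by hypothesis. *sig*: condition (A): let
`τ : Ω → k` be above `σ ∈ T` and `g ∈ Gal(L/K)` preserve the norms of `τ` on `L`; the prime
`V = {x ∈ 𝓞_L : ‖τ x‖ < 1}` is above a prime above `p`, and `g` preserves it, so it preserves its
valuation; so `g = 1`. -/
def X_ADM : Prop :=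
  ∀ (p : ℕ) [Fact p.Prime] (n : ℕ) (K : Type) [Field K] [NumberField K]
    (M : IntermediateField K (AlgebraicClosure K)) [NumberField M] [IsGalois K M]
    (R : Set (HeightOneSpectrum (𝓞 K))) (L : IntermediateField K (AlgebraicClosure K))
    [NumberField L] [IsGalois K L], finrank K L = p ^ n →
    (∀ v : HeightOneSpectrum (𝓞 K), (v ∈ R ∨ v.valuation K (p : K) < 1) →
      ∀ V : HeightOneSpectrum (𝓞 L), Above V v → FreeP K V) →
    (∀ v : HeightOneSpectrum (𝓞 K), v ∉ R → v.valuation K (p : K) = 1 →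
      (∃ w : HeightOneSpectrum (𝓞 M), Above w v ∧ FreeP K w) →
      ∀ V : HeightOneSpectrum (𝓞 L), Above V v → ∀ x : K, ordv V (algebraMap K L x) = ordv v x) →
  ∀ (T : Set (K →+* ℂ_[p])) (χ₀ : (M ≃ₐ[K] M) →* ℂ_[p]ˣ), Adm p T R M χ₀ L

/-- The `Σ`-Leopoldt statement for the characters `χ = χ₀ φ`, `φ` a faithful character of the cyclic
extension `N/K` of degree `p^n`: `H = MN`, `χ` is any injective character of `Gal(H/K)` such that
`χ(h)^(p^n) = χ₀(g)^(p^n)` if `h` extends `g ∈ Gal(M/K)`. -/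
def TwistGoodN (p n : ℕ) {K Ω k : Type} [Field K] [Field Ω] [Algebra K Ω] [NormedField k]
    (ιinf : Ω →+* ℂ) (ιp : Ω →+* k) (Lg : IwasawaLog p k) (S : Set (K →+* ℂ))
    (M : IntermediateField K Ω) (χ₀ : (M ≃ₐ[K] M) →* kˣ) (N : IntermediateField K Ω) : Prop :=
  ∀ H : IntermediateField K Ω, H = M ⊔ N → ∀ (χ : (H ≃ₐ[K] H) →* kˣ), Function.Injective χ →
    (∀ (h : H ≃ₐ[K] H) (g : M ≃ₐ[K] M),
      (∀ (x : M) (y : H), (y : Ω) = (x : Ω) → ((h y : H) : Ω) = ((g x : M) : Ω)) →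
      χ h ^ p ^ n = χ₀ g ^ p ^ n) →
    InjectiveOn (finrank K H) χ unitsHom (logSigma ιinf ιp S Lg)

/-- **X_TWI** (from `TwistAll` to `TwistGoodN`). Let `L/K` be cyclic of degree `p^n`, `N/K` Galois of degree
`p`, not contained in `L`, `n ≥ 1`. There is a cyclic extension `N'/K` of degree `p^n`, contained in `N L`,
with `N ≤ N' ⊔ L`, such that, for all `S`, `χ₀`, `TwistAll` for `N`, `L` implies `TwistGoodN` for `N'`.

PROOF. Let `k = ℂ_[p]`, `C = N ⊔ L`. `N ⊓ L = K`, `Gal(C/K) → Gal(N/K) × Gal(L/K)` is an isomorphism; let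
`φ₀`, `ψ₀` be faithful characters of the cyclic groups `Gal(N/K)`, `Gal(L/K)` with values in `kˣ` (`k` is
algebraically closed of characteristic 0), and `φ₁ = φ₀ ψ₀`, a character of `Gal(C/K)`; `N'` the fixed field
of its kernel. `φ₁^(p^n) = 1`, and the restriction of `φ₁` to `Gal(C/N) = Gal(L/K)` is `ψ₀`, of order `p^n`: so
`Gal(N'/K)` is isomorphic to the image of `φ₁`, which is cyclic of order `p^n`. An element of
`Gal(C/L) = Gal(N/K)` which is trivial on `N'` is in the kernel of `φ₀`, so it is `1`: `N' ⊔ L = C`.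
Let `H = M ⊔ N'`, `χ` as in `TwistGoodN`, `m = [M : K]` prime to `p`. For `g ∈ Gal(Ω/K)` let
`χ₁(g) = χ(g|_H)/χ₀(g|_M)`; `χ₁(g)^(p^n) = 1`. If `g` is trivial on `N'`, then `g^m` is trivial on `M` and
`N'`, so on `H`, and `χ₁(g)^m = 1`, so `χ₁(g) = 1`. So `χ₁` is a character of `Gal(N'/K)`. It is faithful: if
`g|_{N'}` is in its kernel, let `g₁ ∈ Gal(Ω/K)` be equal to `g` on `N'` and trivial on `M` (`M` and `N'` have
coprime degrees and are Galois over `K`); `χ(g₁|_H) = χ₀(1) χ₁(g) = 1`, so `g₁|_H = 1` and `g|_{N'} = 1`. Both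
`χ₁` and `φ₁` are faithful characters of the cyclic group `Gal(N'/K)` of order `p^n`; so `χ₁ = φ₁^u` with
`u` prime to `p`. So `χ = χ₀ φ₀^u ψ₀^u` on `Gal(Ω/K)`, `φ₀^u` is faithful, and `TwistAll` applies. -/
def X_TWI : Prop :=
  ∀ (p : ℕ) [Fact p.Prime] (n : ℕ), 1 ≤ n → ∀ (K : Type) [Field K] [NumberField K]
    (M : IntermediateField K (AlgebraicClosure K)) [NumberField M] [IsGalois K M],
    (finrank K M).Coprime p →
  ∀ (N L : IntermediateField K (AlgebraicClosure K)) [NumberField L] [IsGalois K N] [IsGalois K L],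
    finrank K N = p → IsCyclic (L ≃ₐ[K] L) → finrank K L = p ^ n → ¬ N ≤ L →
  ∃ N' : IntermediateField K (AlgebraicClosure K), finrank K N' = p ^ n ∧ IsGalois K N' ∧
    IsCyclic (N' ≃ₐ[K] N') ∧ N' ≤ N ⊔ L ∧ N ≤ N' ⊔ L ∧
    ∀ (ιinf : AlgebraicClosure K →+* ℂ) (ιp : AlgebraicClosure K →+* ℂ_[p])
      (Lg : IwasawaLog p ℂ_[p]) (S : Set (K →+* ℂ)) (χ₀ : (M ≃ₐ[K] M) →* ℂ_[p]ˣ),
      Function.Injective χ₀ → TwistAll ιinf ιp Lg S M χ₀ N L →
      TwistGoodN p n ιinf ιp Lg S M χ₀ N'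

/-- **L_PPW** (characters of order `p^n`). In the situation of `L_RSQ`, for every `n ≥ 1` there are
infinitely many cyclic extensions `N/K` of degree `p^n` such that for all `i` and all faithful characters
`φ` of `Gal(N/K)` the `Σ`-Leopoldt statement holds for `χ₀ i φ`.

PROOF (from `L_RSQ`, `X_LEX`, `X_ADM`, `X_TWI`). `K` is totally complex (there is a CM type). Let `R` be given
by `L_RSQ`, `L` by `X_LEX` for `R` and `n`; it is admissible by `X_ADM`. Infinitely many of the `N` given by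
`L_RSQ` are not contained in `L` (a finite separable extension has finitely many intermediate fields); for
these `N` let `N'` be given by `X_TWI`. A given `N'` occurs for finitely many `N`, since
`N ≤ N' ⊔ L`. -/
def L_PPW : Prop :=
  ∀ (p : ℕ) [Fact p.Prime] (K : Type) [Field K] [NumberField K] (ιinf : AlgebraicClosure K →+* ℂ)
    (ιp : AlgebraicClosure K →+* ℂ_[p]) (Lg : IwasawaLog p ℂ_[p])
    (M : IntermediateField K (AlgebraicClosure K)) [NumberField M] [IsGalois K M],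
    (finrank K M).Coprime p →
    (∀ ξ : AlgebraicClosure K, IsPrimitiveRoot ξ p → ¬ M ≤ IntermediateField.adjoin K {ξ}) →
  ∀ (ι : Type) [Nonempty ι] (S : ι → Set (K →+* ℂ)) (χ₀ : ι → ((M ≃ₐ[K] M) →* ℂ_[p]ˣ))
    (c : ι → Fin p), (∀ i, IsCMType (S i)) →
    (∀ i, ∀ σ τ : K →+* AlgebraicClosure K, (∀ x, ‖ιp (σ x)‖ = ‖ιp (τ x)‖) →
      (ιinf.comp σ ∈ S i ↔ ιinf.comp τ ∈ S i)) →
    (∀ i, Function.Injective (χ₀ i)) →
    (∀ i j, c i = c j → S i = S j ∧ ∃ r : ℕ, ∀ g, χ₀ i g = χ₀ j g ^ p ^ r) →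
  ∀ n : ℕ, 1 ≤ n →
    {N : IntermediateField K (AlgebraicClosure K) | finrank K N = p ^ n ∧ IsGalois K N ∧
      IsCyclic (N ≃ₐ[K] N) ∧ ∀ i, TwistGoodN p n ιinf ιp Lg (S i) M (χ₀ i) N}.Infinite

end Pool.Agent.Helper77.RL
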