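import Pool.Agent.Helper38.RD.Asm
import Pool.Agent.Helper77.RL.Goals3
import Pool.Agent.Helper48.RL.FIX
import Pool.Agent.Helper11.RL.POL
import Pool.Agent.Helper93.RL.DES
import Pool.Agent.Helper51.RL.EXP
import Pool.Agent.Helper72.RL.ISO
import Pool.Agent.Helper56.RL.ROU
import Pool.Agent.Helper96.RL.WGT
import Pool.Agent.Helper99.RL.TOR
import Pool.Agent.Helper40.RL.LSD
import Pool.Agent.Helper95.RL.SUB
import Pool.Agent.Helper49.RL.LIFT
import Pool.Agent.Helper30.RL.SQR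
import Pool.Agent.Helper22.RL.FRE
import Pool.Agent.Helper2.RL.EF1
import Pool.Agent.Helper74.RL.EUN
import Pool.Agent.Helper32.RL.DAT
import Pool.Agent.Helper51.RL.PRM
import Pool.Agent.Helper9.RL.TRV
import Pool.Agent.Helper24.RL.TRK
import Pool.Agent.Helper13.RL.GOO
import Pool.Agent.Helper96.RL.INM
import Pool.Agent.Helper93.RL.RSQ
import Pool.Agent.Helper11.RL.INE
import Pool.Agent.Helper14.RL.EXF
import Pool.Agent.Helper86.RL.PSI
import Pool.Agent.Helper48.RL.SPL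
import Pool.Agent.Helper8.RL.BEN
import Pool.Agent.Helper7.RL.CHO
import Pool.Agent.Helper96.RL.LEX
import Pool.Agent.Helper56.RL.ADM
import Pool.Agent.Helper42.RL.TWI
import Pool.Agent.Helper33.RL.PPW
import Pool.Agent.Helper17.RL.MCH
import Pool.Agent.Helper4.RL.TYP
import Pool.Agent.Helper82.RL.UNR
import Pool.Agent.Helper35.RL.TWN
import Pool.Agent.Helper69.RL.BEJ

/-! Assembly of project RL. -/

namespace Pool.Agent.Helper77.RL

open Pool.Agent.Helper51.RP Pool.Agent.Helper38.RSP Pool.Agent.Helper42.RD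
  Pool.Agent.Helper76.RD

theorem e_nfi : E_NFI :=
  Pool.Agent.Helper96.RD.e_nfi Pool.Agent.Helper38.RS.s_psm Pool.Agent.Helper88.RS.s_dg1

theorem l_lsd : L_LSD :=
  Pool.Agent.Helper40.RL.l_lsd
    (Pool.Agent.Helper99.RL.l_tor Pool.Agent.Helper51.RL.l_exp Pool.Agent.Helper72.RL.l_iso
      Pool.Agent.Helper56.RL.l_rou)
    Pool.Agent.Helper96.RL.l_wgt Pool.Agent.Helper11.RL.l_pol

theorem l_lift : L_LIFT :=
  Pool.Agent.Helper49.RL.l_lift Pool.Agent.Helper95.RL.l_sub Pool.Agent.Helper48.RL.l_fix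
    (Pool.Agent.Helper93.RL.l_des Pool.Agent.Helper11.RL.l_pol) l_lsd
    Pool.Agent.Helper11.RP.s_nsp

theorem l_dat : L_DAT :=
  Pool.Agent.Helper32.RL.l_dat (Pool.Agent.Helper22.RL.l_fre Pool.Agent.Helper30.RL.l_sqr)
    Pool.Agent.Helper2.RL.l_ef1

theorem l_prm : L_PRM :=
  Pool.Agent.Helper51.RL.l_prm Pool.Agent.Helper2.RL.l_ef1
    (Pool.Agent.Helper74.RL.l_eun Pool.Agent.Helper30.RL.l_sqr)

theorem l_fre : L_FRE := Pool.Agent.Helper22.RL.l_fre Pool.Agent.Helper30.RL.l_sqr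

theorem l_mch : L_MCH :=
  Pool.Agent.Helper17.RL.l_mch Pool.Agent.Helper30.RL.l_sqr l_fre Pool.Agent.Helper2.RL.l_ef1

theorem l_trv : L_TRV :=
  Pool.Agent.Helper9.RL.l_trv Pool.Agent.Helper30.RL.l_sqr l_dat l_mch l_prm
    (Pool.Agent.Helper4.RL.l_typ Pool.Agent.Helper30.RL.l_sqr) l_lift Pool.Agent.Helper38.RD.e_mat

theorem l_goo : L_GOO :=
  Pool.Agent.Helper13.RL.l_goo Pool.Agent.Helper38.RD.s_p1 Pool.Agent.Helper30.RL.l_sqr
    l_trv (Pool.Agent.Helper24.RL.l_trk Pool.Agent.Helper72.RD.e_tor)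

theorem l_inm : L_INM :=
  Pool.Agent.Helper96.RL.l_inm Pool.Agent.Helper14.RD.e_tow Pool.Agent.Helper38.RD.e_exa
    Pool.Agent.Helper32.RD.e_kum l_goo

/-- Twists of order `p` after all admissible base changes. -/
theorem l_rsq : L_RSQ :=
  Pool.Agent.Helper93.RL.l_rsq Pool.Agent.Helper22.RP.s_phi Pool.Agent.Helper38.RD.d_coq
    Pool.Agent.Helper72.RD.e_tor Pool.Agent.Helper20.RD.e_frb l_inm

theorem x_bej : X_BEJ :=
  Pool.Agent.Helper69.RL.x_bej Pool.Agent.Helper38.RD.sp_hlf Pool.Agent.Helper38.RS.s_psm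

theorem x_lex : X_LEX :=
  Pool.Agent.Helper96.RL.x_lex Pool.Agent.Helper11.RL.x_ine Pool.Agent.Helper14.RL.x_exf
    Pool.Agent.Helper86.RL.x_psi Pool.Agent.Helper48.RL.x_spl Pool.Agent.Helper82.RL.x_unr
    (Pool.Agent.Helper7.RL.x_cho Pool.Agent.Helper35.RL.x_twn
      (Pool.Agent.Helper8.RL.x_ben x_bej) e_nfi)

/-- Twists of order `p^n`. -/
theorem l_ppw : L_PPW :=
  Pool.Agent.Helper33.RL.l_ppw l_rsq x_lex Pool.Agent.Helper56.RL.x_adm
    Pool.Agent.Helper42.RL.x_twi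

end Pool.Agent.Helper77.RL
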