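import Pool.Agent.Helper51.RP.Defs

/-!
# Project RL (MP_fc6b1e_nt): the action of polynomials with integer coefficients

For an automorphism `δ` of `M/K` and `Q ∈ ℤ[X]`, `act δ Q : Mˣ → Mˣ` is the operator `Q(δ)`:
`x ↦ ∏_j (δ^j x)^(coeff Q j)`.
-/

namespace Pool.Agent.Helper77.RL

open Polynomial Pool.Agent.Helper51.RP

section

variable {K M : Type} [Field K] [Field M] [Algebra K M]

/-- The automorphism `δ` as an endomorphism of `Mˣ`, written additively. -/
noncomputable def endo (δ : M ≃ₐ[K] M) : Module.End ℤ (Additive Mˣ) :=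
  (MonoidHom.toAdditive (Units.map ((δ : M →+* M) : M →* M))).toIntLinearMap

/-- The operator `Q(δ)` on `Mˣ`. -/
noncomputable def act (δ : M ≃ₐ[K] M) (Q : ℤ[X]) : Mˣ →* Mˣ :=
  AddMonoidHom.toMultiplicative (aeval (R := ℤ) (endo δ) Q : Module.End ℤ (Additive Mˣ)).toAddMonoidHom

theorem act_apply (δ : M ≃ₐ[K] M) (Q : ℤ[X]) (x : Mˣ) :
    act δ Q x = ((aeval (R := ℤ) (endo δ) Q : Module.End ℤ (Additive Mˣ))
      (Additive.ofMul x)).toMul := rfl

theorem act_add (δ : M ≃ₐ[K] M) (A B : ℤ[X]) (x : Mˣ) :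
    act δ (A + B) x = act δ A x * act δ B x := by
  rw [act_apply, map_add]; rfl

theorem act_sub (δ : M ≃ₐ[K] M) (A B : ℤ[X]) (x : Mˣ) :
    act δ (A - B) x = act δ A x / act δ B x := by
  rw [act_apply, map_sub]; rfl

theorem act_neg (δ : M ≃ₐ[K] M) (A : ℤ[X]) (x : Mˣ) :
    act δ (-A) x = (act δ A x)⁻¹ := by
  rw [act_apply, map_neg]; rfl

theorem act_mul (δ : M ≃ₐ[K] M) (A B : ℤ[X]) (x : Mˣ) :
    act δ (A * B) x = act δ A (act δ B x) := by
  rw [act_apply, map_mul]; rfl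

theorem act_one (δ : M ≃ₐ[K] M) (x : Mˣ) : act δ 1 x = x := by
  rw [act_apply, map_one]; rfl

theorem act_zero (δ : M ≃ₐ[K] M) (x : Mˣ) : act δ 0 x = 1 := by
  rw [act_apply, map_zero]; rfl

theorem act_C (δ : M ≃ₐ[K] M) (n : ℤ) (x : Mˣ) : act δ (C n) x = x ^ n := by
  rw [act_apply, aeval_C, Algebra.algebraMap_eq_smul_one]; rfl

theorem act_natCast (δ : M ≃ₐ[K] M) (n : ℕ) (x : Mˣ) : act δ (n : ℤ[X]) x = x ^ n := by
  have := act_C δ (n : ℤ) x
  simpa using this

theorem endo_pow (δ : M ≃ₐ[K] M) (j : ℕ) : endo (δ ^ j) = (endo δ) ^ j := by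
  induction j with
  | zero => rfl
  | succ j ih => rw [pow_succ, pow_succ, ← ih]; rfl

theorem act_X_pow (δ : M ≃ₐ[K] M) (j : ℕ) (x : Mˣ) :
    act δ (X ^ j) x = Units.map (((δ ^ j : M ≃ₐ[K] M) : M →+* M) : M →* M) x := by
  rw [act_apply, map_pow, aeval_X, ← endo_pow]; rfl

theorem act_X (δ : M ≃ₐ[K] M) (x : Mˣ) :
    act δ X x = Units.map ((δ : M →+* M) : M →* M) x := by
  rw [act_apply, aeval_X]; rfl

theorem act_comm (δ : M ≃ₐ[K] M) (A B : ℤ[X]) (x : Mˣ) :
    act δ A (act δ B x) = act δ B (act δ A x) := by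
  rw [← act_mul, mul_comm, act_mul]

/-- The lift of a polynomial over `ZMod p` to a polynomial with coefficients in `{0, ..., p-1}`. -/
noncomputable def lift {p : ℕ} (P : (ZMod p)[X]) : ℤ[X] :=
  ∑ j ∈ P.support, C ((P.coeff j).val : ℤ) * X ^ j

theorem act_sum {ι : Type} (δ : M ≃ₐ[K] M) (s : Finset ι) (A : ι → ℤ[X]) (x : Mˣ) :
    act δ (∑ i ∈ s, A i) x = ∏ i ∈ s, act δ (A i) x := by
  classical
  induction s using Finset.induction_on with
  | empty => simp [act_zero]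
  | insert a s ha ih => rw [Finset.sum_insert ha, Finset.prod_insert ha, act_add, ih]

theorem act_lift {p : ℕ} (P : (ZMod p)[X]) (δ : M ≃ₐ[K] M) (x : Mˣ) :
    act δ (lift P) x = pol P δ x := by
  rw [lift, act_sum, pol]
  simp only [act_mul, act_C, act_X_pow, MonoidHom.finsetProd_apply]
  refine Finset.prod_congr rfl fun j _ ↦ ?_
  rw [zpow_natCast]; rfl

theorem lift_map {p : ℕ} [Fact p.Prime] (P : (ZMod p)[X]) :
    (lift P).map (Int.castRingHom (ZMod p)) = P := by
  rw [lift, Polynomial.map_sum]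
  conv_rhs => rw [P.as_sum_support_C_mul_X_pow]
  refine Finset.sum_congr rfl fun j _ ↦ ?_
  rw [Polynomial.map_mul, Polynomial.map_pow, map_X, map_C]
  congr 2
  simp

/-- The operators are compatible with homomorphisms of fields. -/
theorem act_map {K' M' : Type} [Field K'] [Field M'] [Algebra K' M'] (f : M →+* M')
    (δ : M ≃ₐ[K] M) (δ₁ : M' ≃ₐ[K'] M') (h : ∀ x, f (δ x) = δ₁ (f x)) (Q : ℤ[X]) (x : Mˣ) :
    Units.map (f : M →* M') (act δ Q x) = act δ₁ Q (Units.map (f : M →* M') x) := by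
  induction Q using Polynomial.induction_on' with
  | add A B hA hB => rw [act_add, act_add, map_mul, hA, hB]
  | monomial n a =>
    rw [← C_mul_X_pow_eq_monomial, act_mul, act_mul, act_C, act_C, map_zpow]
    congr 1
    rw [act_X_pow, act_X_pow]
    ext
    have : ∀ n : ℕ, ∀ y : M, f ((δ ^ n) y) = (δ₁ ^ n) (f y) := by
      intro n
      induction n with
      | zero => intro y; rfl
      | succ n ih => intro y; rw [pow_succ, pow_succ]; exact (ih _).trans (congrArg _ (h y))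
    exact this n x

end

end Pool.Agent.Helper77.RL
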